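import Pool.Agent.Lib.MP_b525bf_ag_h40.Gam

/-!
Coordinates of elements of `R[X]/(P)` for a monic polynomial `P`.
-/

namespace Pool.Agent.MP_b525bf_ag.Gam

open Polynomial AdjoinRoot

section

variable {R : Type} [CommRing R] {P : R[X]} (hP : P.Monic)

lemma cf_apply (m : ℕ) (h : AdjoinRoot P) : cf hP m h = (modByMonicHom hP h).coeff m := rfl

lemma cf_mk (m : ℕ) (f : R[X]) : cf hP m (mk P f) = (f %ₘ P).coeff m := by
  rw [cf_apply, modByMonicHom_mk]

include hP in
lemma exists_rep (h : AdjoinRoot P) : ∃ f : R[X], mk P f = h ∧ f %ₘ P = f := by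
  refine ⟨modByMonicHom hP h, mk_leftInverse hP h, ?_⟩
  obtain ⟨g, rfl⟩ := mk_surjective h
  rw [modByMonicHom_mk]
  nontriviality R
  rw [modByMonic_eq_self_iff hP]
  exact degree_modByMonic_lt g hP

lemma cf_of_ge {m : ℕ} (hm : P.natDegree ≤ m) (h : AdjoinRoot P) : cf hP m h = 0 := by
  nontriviality R
  obtain ⟨f, rfl⟩ := mk_surjective h
  rw [cf_mk]
  refine coeff_eq_zero_of_degree_lt ?_
  refine (degree_modByMonic_lt f hP).trans_le ?_
  rw [degree_eq_natDegree hP.ne_zero]
  exact_mod_cast hm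

lemma sum_cf (h : AdjoinRoot P) :
    ∑ i ∈ Finset.range P.natDegree, of P (cf hP i h) * root P ^ i = h := by
  rcases subsingleton_or_nontrivial R with hR | hR
  · have : Subsingleton R[X] := inferInstance
    have : Subsingleton (AdjoinRoot P) := (mk_surjective (g := P)).subsingleton
    exact Subsingleton.elim _ _
  obtain ⟨f, hf, hf'⟩ := exists_rep hP h
  have h1 : f.natDegree < P.natDegree ∨ f = 0 := by
    by_cases hP0 : P.natDegree = 0
    · right
      have h2 : P = 1 := by
        exact hP.natDegree_eq_zero.1 hP0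
      subst h2
      rw [← hf']; exact modByMonic_one f
    · left
      rw [← hf']
      exact natDegree_modByMonic_lt f hP (fun h2 => hP0 (by rw [h2]; exact natDegree_one))
  rcases h1 with h1 | h1
  · have h2 : ∀ i, cf hP i h = f.coeff i := by
      intro i; rw [← hf, cf_mk, hf']
    simp_rw [h2]
    conv_rhs => rw [← hf, f.as_sum_range' P.natDegree h1, map_sum]
    refine Finset.sum_congr rfl fun i _ => ?_
    rw [← C_mul_X_pow_eq_monomial, map_mul, map_pow, mk_C, mk_X]
  · subst h1
    rw [map_zero] at hf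
    subst hf
    simp

lemma cf_ext {h h' : AdjoinRoot P} (H : ∀ m < P.natDegree, cf hP m h = cf hP m h') : h = h' := by
  rw [← sum_cf hP h, ← sum_cf hP h']
  refine Finset.sum_congr rfl fun i hi => ?_
  rw [H i (Finset.mem_range.1 hi)]

lemma cf_of_mul (m : ℕ) (r : R) (h : AdjoinRoot P) : cf hP m (of P r * h) = r * cf hP m h := by
  have : of P r * h = r • h := by rw [Algebra.smul_def]; rfl
  rw [this, map_smul, smul_eq_mul]

lemma cf_root_pow {l : ℕ} (hl : l < P.natDegree) (m : ℕ) :
    cf hP m (root P ^ l) = if m = l then 1 else 0 := by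
  nontriviality R
  have h1 : root P ^ l = mk P (X ^ l) := by rw [map_pow, mk_X]
  rw [h1, cf_mk, (modByMonic_eq_self_iff hP).2, coeff_X_pow]
  rw [degree_X_pow, degree_eq_natDegree hP.ne_zero]
  exact_mod_cast hl

lemma cf_sum_range (c : ℕ → R) (m : ℕ) :
    cf hP m (∑ i ∈ Finset.range P.natDegree, of P (c i) * root P ^ i) =
      if m < P.natDegree then c m else 0 := by
  rw [map_sum]
  have : ∀ i ∈ Finset.range P.natDegree, cf hP m (of P (c i) * root P ^ i) =
      if m = i then c i else 0 := by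
    intro i hi
    rw [cf_of_mul, cf_root_pow hP (Finset.mem_range.1 hi), mul_ite, mul_one, mul_zero]
  rw [Finset.sum_congr rfl this, Finset.sum_ite_eq]
  simp only [Finset.mem_range]

lemma cf_of (h0 : 0 < P.natDegree) (m : ℕ) (r : R) :
    cf hP m (of P r) = if m = 0 then r else 0 := by
  have h1 : of P r = of P r * root P ^ 0 := by rw [pow_zero, mul_one]
  rw [h1, cf_of_mul, cf_root_pow hP h0, mul_ite, mul_one, mul_zero]

include hP in
lemma of_injective (h0 : 0 < P.natDegree) : Function.Injective (of P) := by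
  intro a b hab
  have := congrArg (cf hP 0) hab
  rwa [cf_of hP h0, cf_of hP h0, if_pos rfl, if_pos rfl] at this

lemma cf_zero_eq_lift (h0 : 0 < P.natDegree) (hr : eval₂ (RingHom.id R) 0 P = 0)
    (h : AdjoinRoot P) : lift (RingHom.id R) 0 hr h = cf hP 0 h := by
  conv_lhs => rw [← sum_cf hP h]
  rw [map_sum, Finset.sum_eq_single 0]
  · rw [pow_zero, mul_one, lift_of, RingHom.id_apply]
  · intro i _ hi
    rw [map_mul, map_pow, lift_root, zero_pow hi, mul_zero]
  · intro h1
    exact absurd (Finset.mem_range.2 h0) h1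

/-- Induction principle. -/
lemma lift_eq_sum {S : Type} [CommRing S] (φ : R →+* S) (γ : S) (hγ : eval₂ φ γ P = 0)
    (h : AdjoinRoot P) : lift φ γ hγ h =
      ∑ i ∈ Finset.range P.natDegree, φ (cf hP i h) * γ ^ i := by
  conv_lhs => rw [← sum_cf hP h]
  rw [map_sum]
  refine Finset.sum_congr rfl fun i _ => ?_
  rw [map_mul, map_pow, lift_of, lift_root]

end

section Map

variable {R S : Type} [CommRing R] [CommRing S] {P : R[X]} {Q : S[X]} (hP : P.Monic) (hQ : Q.Monic)
  (φ : R →+* S) (hPQ : P.map φ = Q)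

include hP hQ hPQ

lemma cf_map (m : ℕ) (h : AdjoinRoot P) :
    cf hQ m (AdjoinRoot.map φ P Q hPQ.symm.dvd h) = φ (cf hP m h) := by
  obtain ⟨f, rfl⟩ := mk_surjective h
  have h1 : AdjoinRoot.map φ P Q hPQ.symm.dvd (mk P f) = mk Q (f.map φ) := by
    rw [AdjoinRoot.map, lift_mk]
    rw [← eval₂_map]
    exact aeval_eq _
  rw [h1, cf_mk, cf_mk]
  subst hPQ
  rw [← map_modByMonic φ hP, coeff_map]

lemma map_injective (hφ : Function.Injective φ) :
    Function.Injective (AdjoinRoot.map φ P Q hPQ.symm.dvd) := by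
  have hdeg : P.natDegree ≤ Q.natDegree := by
    subst hPQ
    rw [natDegree_map_eq_of_injective hφ]
  intro h h' hh
  refine cf_ext hP fun m _ => hφ ?_
  rw [← cf_map hP hQ φ hPQ, ← cf_map hP hQ φ hPQ, hh]

omit hP in
/-- Elements with coordinates in the image of `φ` come from `R[X]/(P)`. -/
lemma exists_of_cf (hdeg : P.natDegree = Q.natDegree) (g : AdjoinRoot Q)
    (hg : ∀ m, ∃ r, φ r = cf hQ m g) :
    ∃ h, AdjoinRoot.map φ P Q hPQ.symm.dvd h = g := by
  choose r hr using hg
  refine ⟨∑ i ∈ Finset.range P.natDegree, of P (r i) * root P ^ i, ?_⟩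
  rw [map_sum, ← sum_cf hQ g, hdeg]
  refine Finset.sum_congr rfl fun i _ => ?_
  rw [map_mul, map_pow, map_of, map_root, hr]

end Map

end Pool.Agent.MP_b525bf_ag.Gam
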