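import Mathlib

/-!
Linear actions of finite subgroup schemes of the additive group through `exp (s N)`.
-/

namespace Pool.Agent.MP_b525bf_ag.Gam

open Polynomial

variable {k : Type} [Field k] {n : ℕ}

/-- The coaction of the additive group on polynomials given by the linear substitution
`x ↦ exp (s N) x`, for a matrix `N` with `N ^ p = 0`. -/
noncomputable def expAct (p : ℕ) (N : Matrix (Fin n) (Fin n) k) :
    MvPolynomial (Fin n) k →ₐ[k] (MvPolynomial (Fin n) k)[X] :=
  MvPolynomial.aeval fun j => ∑ l ∈ Finset.range p, ∑ i,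
    C (MvPolynomial.C ((l.factorial : k)⁻¹ * (N ^ l) i j) * MvPolynomial.X i) * X ^ l

/-- The algebra of polynomials `f` with `f (exp (s N) x) ≡ f (x)` modulo `P (s)`, i.e. of the
polynomials invariant under the finite subgroup scheme `P = 0` of the additive group. -/
noncomputable def gammaInv (p : ℕ) (N : Matrix (Fin n) (Fin n) k) (P : k[X]) :
    Subalgebra k (MvPolynomial (Fin n) k) :=
  AlgHom.equalizer
    ((Ideal.Quotient.mkₐ k (Ideal.span {P.map (algebraMap k (MvPolynomial (Fin n) k))})).comp
      (expAct p N))
    ((Ideal.Quotient.mkₐ k (Ideal.span {P.map (algebraMap k (MvPolynomial (Fin n) k))})).comp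
      CAlgHom)

end Pool.Agent.MP_b525bf_ag.Gam
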