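import Mathlib

/-!
Truncated exponentials `exp (γ N)` of a matrix `N` with `N ^ p = 0`, acting on polynomials by linear
substitutions with coefficients in arbitrary commutative algebras.
-/

namespace Pool.Agent.MP_b525bf_ag.Gam

open Finset

variable {k : Type} [Field k] {n : ℕ}

/-- The linear form with coefficients `v`. -/
noncomputable def lf (v : Fin n → k) : MvPolynomial (Fin n) k :=
  ∑ i, MvPolynomial.C (v i) * MvPolynomial.X i

lemma lf_add (v w : Fin n → k) : lf (v + w) = lf v + lf w := by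
  simp only [lf, Pi.add_apply, map_add, add_mul, Finset.sum_add_distrib]

lemma lf_smul (c : k) (v : Fin n → k) : lf (c • v) = c • lf v := by
  simp only [lf, Pi.smul_apply, smul_eq_mul, map_mul, Finset.smul_sum, mul_assoc,
    MvPolynomial.smul_eq_C_mul]

lemma lf_zero : lf (0 : Fin n → k) = 0 := by simp [lf]

lemma lf_single (j : Fin n) : lf (Pi.single j (1 : k)) = MvPolynomial.X j := by
  rw [lf, Finset.sum_eq_single j]
  · rw [Pi.single_eq_same, map_one, one_mul]
  · intro i _ hi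
    rw [Pi.single_eq_of_ne hi, map_zero, zero_mul]
  · intro h
    exact absurd (Finset.mem_univ j) h

section

variable (p : ℕ) (N : Matrix (Fin n) (Fin n) k)

variable {C : Type} [CommRing C] [Algebra k C]

/-- The point `exp (γ N) x` for a point `x` and a scalar `γ` with values in `C`. -/
noncomputable def transl (φ : MvPolynomial (Fin n) k →ₐ[k] C) (γ : C) :
    MvPolynomial (Fin n) k →ₐ[k] C :=
  MvPolynomial.aeval fun j => ∑ l ∈ range p,
    ((l.factorial : k)⁻¹) • (φ (lf ((N ^ l).mulVec (Pi.single j 1))) * γ ^ l)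

lemma transl_X (φ : MvPolynomial (Fin n) k →ₐ[k] C) (γ : C) (j : Fin n) :
    transl p N φ γ (MvPolynomial.X j) = ∑ l ∈ range p,
      ((l.factorial : k)⁻¹) • (φ (lf ((N ^ l).mulVec (Pi.single j 1))) * γ ^ l) := by
  rw [transl, MvPolynomial.aeval_X]

lemma transl_lf (φ : MvPolynomial (Fin n) k →ₐ[k] C) (γ : C) (v : Fin n → k) :
    transl p N φ γ (lf v) = ∑ l ∈ range p,
      ((l.factorial : k)⁻¹) • (φ (lf ((N ^ l).mulVec v)) * γ ^ l) := by
  have h1 : ∀ l, lf ((N ^ l).mulVec v) =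
      ∑ j, v j • lf ((N ^ l).mulVec (Pi.single j (1 : k))) := by
    intro l
    have h2 : (N ^ l).mulVec v = ∑ j, v j • (N ^ l).mulVec (Pi.single j (1 : k)) := by
      conv_lhs => rw [pi_eq_sum_univ' v]
      rw [Matrix.mulVec_sum]
      refine Finset.sum_congr rfl fun j _ => ?_
      rw [← Matrix.mulVec_smul]
    rw [h2]
    let F : (Fin n → k) →ₗ[k] MvPolynomial (Fin n) k :=
      { toFun := lf, map_add' := lf_add, map_smul' := lf_smul }
    have h3 := map_sum F (fun j => v j • (N ^ l).mulVec (Pi.single j (1 : k))) Finset.univ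
    simp only [map_smul] at h3
    exact h3
  rw [lf, map_sum]
  have h4 : ∀ j, transl p N φ γ (MvPolynomial.C (v j) * MvPolynomial.X j) =
      ∑ l ∈ range p, v j •
        ((l.factorial : k)⁻¹) • (φ (lf ((N ^ l).mulVec (Pi.single j 1))) * γ ^ l) := by
    intro j
    rw [← MvPolynomial.smul_eq_C_mul, map_smul, transl_X, Finset.smul_sum]
  simp_rw [h4]
  rw [Finset.sum_comm]
  refine Finset.sum_congr rfl fun l _ => ?_
  rw [h1, map_sum, Finset.sum_mul, Finset.smul_sum]
  refine Finset.sum_congr rfl fun j _ => ?_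
  rw [map_smul, smul_mul_assoc, smul_comm]

lemma comp_transl {C' : Type} [CommRing C'] [Algebra k C'] (f : C →ₐ[k] C')
    (φ : MvPolynomial (Fin n) k →ₐ[k] C) (γ : C) :
    f.comp (transl p N φ γ) = transl p N (f.comp φ) (f γ) := by
  apply MvPolynomial.algHom_ext
  intro j
  rw [AlgHom.comp_apply, transl_X, transl_X, map_sum]
  refine Finset.sum_congr rfl fun l _ => ?_
  rw [map_smul, map_mul, map_pow]
  rfl

lemma transl_zero (hp : 0 < p) (φ : MvPolynomial (Fin n) k →ₐ[k] C) : transl p N φ 0 = φ := by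
  apply MvPolynomial.algHom_ext
  intro j
  rw [transl_X, Finset.sum_eq_single 0]
  · rw [pow_zero, pow_zero, mul_one, Nat.factorial_zero, Nat.cast_one, inv_one, one_smul,
      Matrix.one_mulVec, lf_single]
  · intro l _ hl
    rw [zero_pow hl, mul_zero, smul_zero]
  · intro h
    exact absurd (Finset.mem_range.2 hp) h

/-- The addition theorem for truncated exponentials. -/
lemma sum_exp_add (hfac : ∀ l < p, (l.factorial : k) ≠ 0) (c : ℕ → C) (hc : ∀ l, p ≤ l → c l = 0)
    (x y : C) :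
    ∑ a ∈ range p, ((a.factorial : k)⁻¹) • (∑ b ∈ range p,
      ((b.factorial : k)⁻¹) • (c (a + b) * x ^ b)) * y ^ a =
    ∑ l ∈ range p, ((l.factorial : k)⁻¹) • (c l * (x + y) ^ l) := by
  have h1 : ∀ l ∈ range p, ((l.factorial : k)⁻¹) • (c l * (x + y) ^ l) =
      ∑ ab ∈ antidiagonal l, ((ab.1.factorial : k)⁻¹ * (ab.2.factorial : k)⁻¹) •
        (c l * x ^ ab.2 * y ^ ab.1) := by
    intro l hl
    rw [add_comm x y, Commute.add_pow' (Commute.all y x), Finset.mul_sum, Finset.smul_sum]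
    refine Finset.sum_congr rfl fun ab hab => ?_
    have hab' : ab.1 + ab.2 = l := Finset.HasAntidiagonal.mem_antidiagonal.1 hab
    have hl' := Finset.mem_range.1 hl
    have h2 : ((l.choose ab.1 : ℕ) : k) = (l.factorial : k) * ((ab.1.factorial : k)⁻¹ *
        (ab.2.factorial : k)⁻¹) := by
      have h3 := hfac ab.1 (by omega)
      have h4 := hfac ab.2 (by omega)
      have h5 := Nat.add_choose_mul_factorial_mul_factorial ab.2 ab.1
      rw [add_comm ab.2, hab', mul_right_comm] at h5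
      rw [← h5, Nat.cast_mul, Nat.cast_mul]
      field_simp
    rw [nsmul_eq_mul, ← mul_assoc, ← mul_assoc]
    have h3 : c l * (l.choose ab.1 : C) * y ^ ab.1 * x ^ ab.2 =
        ((l.choose ab.1 : ℕ) : k) • (c l * x ^ ab.2 * y ^ ab.1) := by
      rw [Algebra.smul_def, map_natCast]; ring
    rw [h3, smul_smul, h2, ← mul_assoc, inv_mul_cancel₀ (hfac l hl'), one_mul]
  rw [Finset.sum_congr rfl h1, Finset.sum_sigma']
  have h2 : ∀ a ∈ range p, ((a.factorial : k)⁻¹) • (∑ b ∈ range p,
      ((b.factorial : k)⁻¹) • (c (a + b) * x ^ b)) * y ^ a =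
      ∑ b ∈ range p, ((a.factorial : k)⁻¹ * (b.factorial : k)⁻¹) • (c (a + b) * x ^ b * y ^ a) := by
    intro a _
    rw [smul_mul_assoc, Finset.sum_mul, Finset.smul_sum]
    refine Finset.sum_congr rfl fun b _ => ?_
    rw [smul_mul_assoc, smul_smul]
  rw [Finset.sum_congr rfl h2, Finset.sum_sigma']
  -- restrict to `a + b < p`
  have h3 : ∑ s ∈ (range p).sigma fun _ => range p,
      ((s.1.factorial : k)⁻¹ * (s.2.factorial : k)⁻¹) • (c (s.1 + s.2) * x ^ s.2 * y ^ s.1) =
      ∑ s ∈ ((range p).sigma fun _ => range p) with s.1 + s.2 < p,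
      ((s.1.factorial : k)⁻¹ * (s.2.factorial : k)⁻¹) • (c (s.1 + s.2) * x ^ s.2 * y ^ s.1) := by
    rw [Finset.sum_filter_of_ne]
    intro s _ hs
    by_contra hcon
    apply hs
    rw [hc _ (not_lt.1 hcon), zero_mul, zero_mul, smul_zero]
  rw [h3]
  refine Finset.sum_bij' (fun s _ => ⟨s.1 + s.2, (s.1, s.2)⟩) (fun s _ => ⟨s.2.1, s.2.2⟩) ?_ ?_ ?_
    ?_ ?_
  · rintro ⟨a, b⟩ hs
    rw [Finset.mem_filter] at hs
    exact Finset.mem_sigma.2 ⟨Finset.mem_range.2 hs.2, Finset.HasAntidiagonal.mem_antidiagonal.2 rfl⟩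
  · rintro ⟨l, a, b⟩ hs
    have h4 := Finset.mem_range.1 (Finset.mem_sigma.1 hs).1
    have h5 : a + b = l := Finset.HasAntidiagonal.mem_antidiagonal.1 (Finset.mem_sigma.1 hs).2
    dsimp only at h4
    rw [Finset.mem_filter, Finset.mem_sigma, Finset.mem_range, Finset.mem_range]
    dsimp only
    omega
  · rintro ⟨a, b⟩ hs
    rfl
  · rintro ⟨l, a, b⟩ hs
    have h5 : a + b = l := Finset.HasAntidiagonal.mem_antidiagonal.1 (Finset.mem_sigma.1 hs).2
    subst h5
    rfl
  · rintro ⟨a, b⟩ hs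
    rfl

lemma transl_transl (hfac : ∀ l < p, (l.factorial : k) ≠ 0) (hN : N ^ p = 0)
    (φ : MvPolynomial (Fin n) k →ₐ[k] C) (γ γ' : C) :
    transl p N (transl p N φ γ) γ' = transl p N φ (γ + γ') := by
  apply MvPolynomial.algHom_ext
  intro j
  rw [transl_X, transl_X]
  have h1 := sum_exp_add (k := k) p hfac
    (fun l => φ (lf ((N ^ l).mulVec (Pi.single j 1)))) (fun l hl => by
      obtain ⟨m, rfl⟩ := Nat.exists_eq_add_of_le hl
      rw [pow_add, hN, zero_mul, Matrix.zero_mulVec, lf_zero, map_zero]) γ γ'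
  rw [← h1]
  refine Finset.sum_congr rfl fun l _ => ?_
  rw [transl_lf, smul_mul_assoc]
  congr 2
  refine Finset.sum_congr rfl fun b _ => ?_
  rw [Matrix.mulVec_mulVec, ← pow_add, add_comm b l]

end

end Pool.Agent.MP_b525bf_ag.Gam
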