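import Pool.Agent.Lib.MP_b525bf_ag_h42.Gam.LCo
import Pool.Agent.Lib.MP_b525bf_ag_h40.Gam2
import Pool.Agent.Lib.MP_b525bf_ag_helper53.GoodFix

/-!
Graded families with a coaction.
-/

set_option linter.style.haveILetI false

namespace Pool.Agent.MP_b525bf_ag.Gam

open Polynomial AdjoinRoot Comod

variable {k K : Type} [Field k] [Field K] [Algebra k K]

/-- The data of a finite subgroup scheme of the additive group of order greater than one. -/
structure Grp (p : ℕ) (P : k[X]) : Prop where
  prime : p.Prime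
  charP : CharP k p
  monic : P.Monic
  deg : 1 < P.natDegree
  add : ∀ i, P.coeff i ≠ 0 → ∃ e, i = p ^ e

variable {p : ℕ} {P : k[X]} (g : Grp p P) (c : Coaction k (PR K P))

/-- The coordinates of the coaction on the field. -/
noncomputable def DK (m : ℕ) : K →ₗ[k] K :=
  ((cf (g.monic.map (algebraMap k K)) m).restrictScalars k) ∘ₗ c.μ.toLinearMap

lemma DK_apply (m : ℕ) (x : K) : DK g c m x = cf (g.monic.map (algebraMap k K)) m (c.μ x) := rfl

include g in
lemma PK_natDegree : (PR K P).natDegree = P.natDegree := g.monic.natDegree_map _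

lemma DK_zero (x : K) : DK g c 0 x = x := by
  rw [DK_apply, ← cf_zero_eq_lift _ (by rw [PK_natDegree g]; exact pos_of_gt g.deg) c.root_zero,
    c.counit]

/-- Invariant elements. -/
lemma inv_iff (x : K) : c.μ x = of _ x ↔ ∀ m, 1 ≤ m → DK g c m x = 0 := by
  have h0 : 0 < (PR K P).natDegree := by rw [PK_natDegree g]; exact pos_of_gt g.deg
  constructor
  · intro h m hm
    rw [DK_apply, h, cf_of _ h0, if_neg (by omega)]
  · intro h
    refine cf_ext (g.monic.map _) fun m _ => ?_
    rw [cf_of _ h0]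
    split_ifs with hm
    · subst hm; exact DK_zero g c x
    · exact h m (by omega)

/-- The family `N` is stable under the graded coaction. -/
structure AdmG (N : Fam k K ℤ) : Prop where
  t_mem : (1 : K) ∈ N.s (-1)
  D_mem : ∀ (a : ℤ) (x : K), x ∈ N.s a → ∀ m : ℕ, DK g c m x ∈ N.s (a + m)

/-- The family of invariant elements. -/
def fixG (N : Fam k K ℤ) : Fam k K ℤ where
  s a :=
    { carrier := {x | x ∈ N.s a ∧ c.μ x = of _ x}
      add_mem' := fun hx hy => ⟨Submodule.add_mem _ hx.1 hy.1, by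
        rw [map_add, map_add, hx.2, hy.2]⟩
      zero_mem' := ⟨Submodule.zero_mem _, by rw [map_zero, map_zero]⟩
      smul_mem' := fun r x hx => ⟨Submodule.smul_mem _ r hx.1, by
        rw [map_smul, hx.2, Algebra.smul_def, Algebra.smul_def, map_mul]; rfl⟩ }
  one' := ⟨N.one', by rw [map_one, map_one]⟩
  mul' := fun hx hy => ⟨N.mul' hx.1 hy.1, by rw [map_mul, map_mul, hx.2, hy.2]⟩

variable {c}

lemma mem_fixG {N : Fam k K ℤ} {a : ℤ} {x : K} :
    x ∈ (fixG c N).s a ↔ x ∈ N.s a ∧ c.μ x = of _ x := Iff.rfl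

lemma fixG_loc (N : Fam k K ℤ) {a : ℤ} {x : K} (hx : x ∈ (fixG c N).s a)
    (hx0 : x ≠ 0) : (fixG c N).loc hx = fixG c (N.loc hx.1) := by
  apply Fam.ext
  intro b
  ext y
  rw [mem_fixG, Fam.mem_loc, Fam.mem_loc]
  have hu : ∀ m : ℕ, IsUnit (of (PR K P) (x ^ m)) := fun m =>
    (IsUnit.mk0 _ (pow_ne_zero m hx0)).map _
  constructor
  · rintro ⟨m, hm⟩
    refine ⟨⟨m, hm.1⟩, ?_⟩
    have h1 := hm.2
    rw [map_mul, map_mul, map_pow, hx.2, ← map_pow] at h1
    exact (hu m).mul_left_cancel h1
  · rintro ⟨⟨m, hm⟩, hy⟩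
    refine ⟨m, hm, ?_⟩
    rw [map_mul, map_mul, map_pow, map_pow, hx.2, hy]

variable {N : Fam k K ℤ}

lemma AdmG.down (h : AdmG g c N) {a : ℤ} {x : K} (hx : x ∈ N.s (a + 1)) : x ∈ N.s a := by
  have := N.mul' h.t_mem hx
  rwa [one_mul, show (-1 : ℤ) + (a + 1) = a by ring] at this

lemma AdmG.loc (h : AdmG g c N) {a : ℤ} {x : K} (hx : x ∈ N.s a) (hτ : c.μ x = of _ x) :
    AdmG g c (N.loc hx) where
  t_mem := N.le_loc hx _ h.t_mem
  D_mem := by
    rintro b y ⟨m, hm⟩ l
    refine ⟨m, ?_⟩
    have h1 := h.D_mem _ _ hm l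
    rw [DK_apply, map_mul, map_pow, hτ, ← map_pow, cf_of_mul, add_assoc] at h1
    exact h1

/-! ### The coaction on the algebra of a family -/

/-- The homogenised polynomial over the algebra of the family. -/
noncomputable abbrev PN (P : k[X]) (N : Fam k K ℤ) (t_mem : (1 : K) ∈ N.s (-1)) : N.alg[X] :=
  PT N.alg P (N.el t_mem)

include g in
lemma PN_map (t_mem : (1 : K) ∈ N.s (-1)) :
    (PN P N t_mem).map (N.alg.val : N.alg →+* AddMonoidAlgebra K ℤ) = PL K P :=
  PT_map N.alg.val g.monic _

lemma exists_muN (h : AdmG g c N) : ∃ muR : N.alg →+* AdjoinRoot (PN P N h.t_mem),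
    Coact (PN P N h.t_mem) muR ∧ ∀ (hR : Coact (PN P N h.t_mem) muR) (r : N.alg) (m : ℕ),
      ((cf hR.monic m (muR r) : N.alg) : AddMonoidAlgebra K ℤ) =
        cf (PT_monic g.monic (Tm (-1))) m (muL c (r : AddMonoidAlgebra K ℤ)) := by
  haveI := g.charP
  haveI : Fact p.Prime := ⟨g.prime⟩
  have hL := coactL c p g.monic (pos_of_gt g.deg) g.add
  refine Coact.restrict (N.alg.val : N.alg →+* AddMonoidAlgebra K ℤ) Subtype.val_injective
    (PN_map g h.t_mem) (PT_monic g.monic _) hL
    (fun φ a b => PT_additive p g.add N.alg (N.el h.t_mem) _ φ a b) ?_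
  intro r m
  refine ⟨⟨cf (PT_monic g.monic (Tm (-1))) m (muL c (r : AddMonoidAlgebra K ℤ)), fun b => ?_⟩, rfl⟩
  rw [coeff_cf_muL c g.monic]
  have h1 := h.D_mem (b - m) _ (r.2 (b - m)) m
  rw [sub_add_cancel] at h1
  exact h1

/-- The coaction on the algebra of the family. -/
noncomputable def muN (h : AdmG g c N) : N.alg →+* AdjoinRoot (PN P N h.t_mem) :=
  (exists_muN g h).choose

lemma coactN (h : AdmG g c N) : Coact (PN P N h.t_mem) (muN g h) := (exists_muN g h).choose_spec.1

lemma PN_natDegree (h : AdmG g c N) : (PN P N h.t_mem).natDegree = P.natDegree :=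
  PT_natDegree g.monic _

lemma coe_cf_muN (h : AdmG g c N) (r : N.alg) (m : ℕ) :
    ((cf (coactN g h).monic m (muN g h r) : N.alg) : AddMonoidAlgebra K ℤ) =
      cf (PT_monic g.monic (Tm (-1))) m (muL c (r : AddMonoidAlgebra K ℤ)) :=
  (exists_muN g h).choose_spec.2 (coactN g h) r m

lemma coeff_cf_muN (h : AdmG g c N) (r : N.alg) (m : ℕ) (b : ℤ) :
    ((cf (coactN g h).monic m (muN g h r) : N.alg) : AddMonoidAlgebra K ℤ).coeff b =
      DK g c m ((r : AddMonoidAlgebra K ℤ).coeff (b - m)) := by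
  rw [coe_cf_muN, coeff_cf_muL c g.monic, DK_apply]

lemma cf_muN_el (h : AdmG g c N) {a : ℤ} {x : K} (hx : x ∈ N.s a) (m : ℕ) :
    cf (coactN g h).monic m (muN g h (N.el hx)) = N.el (h.D_mem a x hx m) := by
  apply Subtype.ext
  rw [coe_cf_muN, Fam.coe_el, cf_muL_single c g.monic]
  rfl

/-- Invariants of the graded coaction. -/
lemma muN_fixed_iff (h : AdmG g c N) (r : N.alg) :
    muN g h r = of _ r ↔ ∀ a, c.μ ((r : AddMonoidAlgebra K ℤ).coeff a) =
      of _ ((r : AddMonoidAlgebra K ℤ).coeff a) := by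
  have hd : (PN P N h.t_mem).natDegree = P.natDegree := PN_natDegree g h
  have h0 : 0 < (PN P N h.t_mem).natDegree := by rw [hd]; exact pos_of_gt g.deg
  constructor
  · intro hr a
    rw [inv_iff g]
    intro m hm
    have h1 := coeff_cf_muN g h r m (a + m)
    rw [hr, cf_of _ h0, if_neg (by omega), add_sub_cancel_right] at h1
    rw [← h1]
    simp
  · intro hr
    refine cf_ext (coactN g h).monic fun m _ => ?_
    rw [cf_of _ h0]
    split_ifs with hm
    · subst hm
      exact (coactN g h).counit r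
    · apply Subtype.ext
      apply AddMonoidAlgebra.ext
      ext b
      rw [coeff_cf_muN, (inv_iff g c _).1 (hr _) m (by omega)]
      simp

/-- The inclusion of the fixed part. -/
noncomputable def gIncl (c : Coaction k (PR K P)) (N : Fam k K ℤ) : (fixG c N).alg →ₐ[k] N.alg :=
  Subalgebra.inclusion (H53.alg_mono fun _ _ hx => hx.1)

lemma coe_gIncl (F : (fixG c N).alg) :
    ((gIncl c N F : N.alg) : AddMonoidAlgebra K ℤ) = F := rfl

lemma gIncl_injective : Function.Injective (gIncl c N) :=
  Subalgebra.inclusion_injective _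

lemma gIncl_el {a : ℤ} {x : K} (hx : x ∈ (fixG c N).s a) :
    gIncl c N ((fixG c N).el hx) = N.el hx.1 := rfl

lemma exists_of_fixedG (h : AdmG g c N) (r : N.alg) (hr : muN g h r = of _ r) :
    ∃ G, gIncl c N G = r :=
  ⟨⟨r, fun a => ⟨r.2 a, (muN_fixed_iff g h r).1 hr a⟩⟩, Subtype.ext rfl⟩

lemma gIncl_fixed (h : AdmG g c N) (G : (fixG c N).alg) :
    muN g h (gIncl c N G) = of _ (gIncl c N G) :=
  (muN_fixed_iff g h _).2 fun a => (G.2 a).2

theorem gIncl_isIntegral (h : AdmG g c N) : (gIncl c N).toRingHom.IsIntegral := by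
  intro r
  have hC := coactN g h
  set χ := (hC.mat r).charpoly with hχ
  have hmon : χ.Monic := Matrix.charpoly_monic _
  have hlift : χ ∈ Polynomial.lifts (gIncl c N).toRingHom := by
    rw [Polynomial.lifts_iff_coeff_lifts]
    intro i
    obtain ⟨G, hG⟩ := exists_of_fixedG g h (χ.coeff i) (hC.charpoly_fixed r i)
    exact ⟨G, hG⟩
  obtain ⟨q, hq, _, hqm⟩ := Polynomial.lifts_and_natDegree_eq_and_monic hlift hmon
  refine ⟨q, hqm, ?_⟩
  rw [← eval_map, hq]
  exact hC.charpoly_eval r

theorem fixG_fg (h : AdmG g c N) (hN : N.alg.FG) : (fixG c N).alg.FG := by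
  letI := (gIncl c N).toRingHom.toAlgebra
  haveI : IsScalarTower k (fixG c N).alg N.alg := IsScalarTower.of_algebraMap_eq fun r => rfl
  haveI : Algebra.IsIntegral (fixG c N).alg N.alg :=
    algebraMap_isIntegral_iff.1 (gIncl_isIntegral g h)
  haveI : Algebra.FiniteType k N.alg := Subalgebra.fg_iff_finiteType _ |>.1 hN
  haveI : Algebra.FiniteType (fixG c N).alg N.alg :=
    Algebra.FiniteType.of_restrictScalars_finiteType k _ _
  haveI : Module.Finite (fixG c N).alg N.alg := Algebra.IsIntegral.finite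
  have := fg_of_fg_of_fg k (fixG c N).alg N.alg Algebra.FiniteType.out Module.Finite.fg_top
    gIncl_injective
  exact (Subalgebra.fg_top _).1 this

/-- The fixed algebra as a subalgebra of the algebra of the family. -/
noncomputable abbrev fixSub (c : Coaction k (PR K P)) (N : Fam k K ℤ) : Subalgebra k N.alg :=
  (gIncl c N).range

/-- Descent of smoothness. -/
theorem smooth_fixG (h : AdmG g c N) (hsm : Algebra.FormallySmooth k N.alg) (y : N.alg)
    (hy : IsUnit (Matrix.of fun m i : Fin (PN P N h.t_mem).natDegree =>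
      cf (coactN g h).monic m (muN g h y ^ (i : ℕ))).det) :
    Algebra.FormallySmooth k (fixG c N).alg := by
  have hC := coactN g h
  haveI : Nontrivial N.alg := inferInstance
  have hq0 : 0 < (PN P N h.t_mem).natDegree := by
    rw [PN_natDegree g h]; exact pos_of_gt g.deg
  set W : Matrix (Fin (PN P N h.t_mem).natDegree) (Fin (PN P N h.t_mem).natDegree) N.alg :=
    Matrix.of fun m i : Fin (PN P N h.t_mem).natDegree =>
      cf (coactN g h).monic m (muN g h y ^ (i : ℕ)) with hW
  have key : Algebra.FormallySmooth k (fixSub c N) := by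
    refine formallySmooth_of_powers (fixSub c N) (PN P N h.t_mem).natDegree hq0 y ?_ ?_
    · intro b
      set a := W⁻¹.mulVec (fun m : Fin (PN P N h.t_mem).natDegree => cf hC.monic m (muN g h b))
        with ha
      have h1 : W.mulVec a = fun m : Fin (PN P N h.t_mem).natDegree =>
          cf hC.monic m (muN g h b) := by
        rw [ha, Matrix.mulVec_mulVec, Matrix.mul_nonsing_inv _ hy, Matrix.one_mulVec]
      have h2 := hC.descent y hy b a (fun m => by
        have := congrFun h1 m
        rw [← this, Matrix.mulVec, dotProduct]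
        refine Finset.sum_congr rfl fun i _ => ?_
        rw [mul_comm]; rfl)
      refine ⟨fun i => ⟨a i, ?_⟩, ?_⟩
      · obtain ⟨G, hG⟩ := exists_of_fixedG g h (a i) (h2.1 i)
        exact ⟨G, hG⟩
      · exact h2.2.symm
    · intro a ha
      have h1 : ∑ i, of _ (a i : N.alg) * muN g h y ^ (i : ℕ) = 0 := by
        have h2 := congrArg (muN g h) ha
        rw [map_sum, map_zero] at h2
        rw [← h2]
        refine Finset.sum_congr rfl fun i _ => ?_
        obtain ⟨G, hG⟩ := (a i).2
        rw [map_mul, map_pow, ← hG]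
        congr 1
        exact (gIncl_fixed g h G).symm
      have h3 : W.mulVec (fun i => (a i : N.alg)) = 0 := by
        funext m
        have h4 := congrArg (cf hC.monic m) h1
        rw [map_sum, map_zero] at h4
        rw [Pi.zero_apply, ← h4, Matrix.mulVec, dotProduct]
        refine Finset.sum_congr rfl fun i _ => ?_
        rw [cf_of_mul, mul_comm]; rfl
      have h5 : (fun i => (a i : N.alg)) = 0 := by
        have h6 : W⁻¹.mulVec (W.mulVec (fun i => (a i : N.alg))) = fun i => (a i : N.alg) := by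
          rw [Matrix.mulVec_mulVec, Matrix.nonsing_inv_mul _ hy, Matrix.one_mulVec]
        rw [h3, Matrix.mulVec_zero] at h6
        exact h6.symm
      intro i
      exact Subtype.ext (congrFun h5 i)
  haveI := key
  exact Algebra.FormallySmooth.of_equiv (A := fixSub c N) (B := (fixG c N).alg)
    (AlgEquiv.ofInjective (gIncl c N) gIncl_injective).symm

end Pool.Agent.MP_b525bf_ag.Gam
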