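import Pool.Agent.Lib.MP_b525bf_ag_h42.Gam.GLin
import Pool.Agent.Lib.MP_b525bf_ag.Iterate
import Pool.Agent.Lib.MP_b525bf_ag.Final
import Pool.Agent.Lib.MP_b525bf_ag.Smooth
import Pool.Agent.Lib.MP_b525bf_ag_helper12.URees

/-!
Resolution of the quotients of affine space by linear actions of finite subgroup schemes of the
additive group.
-/

namespace Pool.Agent.MP_b525bf_ag.Gam

open Polynomial

theorem hasResolution_of_top (k : Type) [Field k] (n : ℕ)
    (S : Subalgebra k (MvPolynomial (Fin n) k)) (hS : S = ⊤) : HasResolution k S := by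
  have h1 : invariants (1 : Matrix (Fin n) (Fin n) k) = ⊤ := by
    rw [invariants, H53.act_one]
    ext x
    exact ⟨fun _ => trivial, fun _ => rfl⟩
  rw [hS, ← h1]
  exact hasResolution_invariants_one k n

theorem hasResolution_gammaInv (p : ℕ) [hp : Fact p.Prime] (k : Type) [Field k] [hk : CharP k p]
    (n : ℕ) (N : Matrix (Fin n) (Fin n) k) (hN : N ^ p = 0) (P : k[X]) (hP : P.Monic)
    (hadd : ∀ i, P.coeff i ≠ 0 → ∃ e, i = p ^ e) : HasResolution k (gammaInv p N P) := by
  have h : Data p N P := ⟨hp.out, hk, hN, hP, hadd⟩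
  have hdeg := h.natDegree_pos
  by_cases hN0 : N = 0
  · refine hasResolution_of_top k n _ (eq_top_iff.2 fun f _ => ?_)
    rw [mem_gammaInv]
    have h1 : expAct p N = (Polynomial.CAlgHom :
        MvPolynomial (Fin n) k →ₐ[k] (MvPolynomial (Fin n) k)[X]) := by
      rw [expAct_eq]
      apply MvPolynomial.algHom_ext
      intro j
      rw [transl_X, Finset.sum_eq_single 0]
      · rw [pow_zero, pow_zero, mul_one, Nat.factorial_zero, Nat.cast_one, inv_one, one_smul,
          Matrix.one_mulVec, lf_single]
      · intro l _ hl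
        rw [hN0, zero_pow hl, Matrix.zero_mulVec, lf_zero, map_zero, zero_mul, smul_zero]
      · intro h0
        exact absurd (Finset.mem_range.2 h.pos) h0
    rw [h1]
    have h2 : (Polynomial.CAlgHom : MvPolynomial (Fin n) k →ₐ[k] (MvPolynomial (Fin n) k)[X]) f =
      Polynomial.C f := rfl
    rw [h2, sub_self]
    exact dvd_zero _
  by_cases hq : 1 < P.natDegree
  · obtain ⟨w, hw, hgood⟩ := (h.initG hq hN0).good
    obtain ⟨M', hM', hM0'⟩ := Good.exists_one_aux
      (fun M w hw h1 h2 => Fam.formallySmooth_wrees M w hw h1 h2) w hw _ hgood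
    have hinj : Function.Injective (algebraMap (gammaInv p N P) (KK k n)) := by
      intro a b hab
      exact Subtype.ext (IsFractionRing.injective (MvPolynomial (Fin n) k) _ hab)
    refine hasResolution_of_good_one k (gammaInv p N P) (KK k n) hinj M' hM' fun z => ?_
    rw [hM0', h.mem_fix_zero]
    constructor
    · rintro ⟨x, hx, rfl⟩
      exact ⟨⟨x, hx⟩, rfl⟩
    · rintro ⟨x, rfl⟩
      exact ⟨x.1, x.2, rfl⟩
  · -- the trivial group
    have hd1 : P.natDegree = 1 := by omega
    have hX : P = X := by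
      have h1 := hP.as_sum
      rw [hd1, Finset.sum_range_one, h.coeff_zero, map_zero, zero_mul, add_zero, pow_one] at h1
      exact h1
    refine hasResolution_of_top k n _ (eq_top_iff.2 fun f _ => ?_)
    rw [mem_gammaInv, hX, Polynomial.map_X, X_dvd_iff, coeff_zero_eq_eval_zero, eval_sub, eval_C]
    let ev : (MvPolynomial (Fin n) k)[X] →ₐ[k] MvPolynomial (Fin n) k :=
      (Polynomial.aeval (0 : MvPolynomial (Fin n) k)).restrictScalars k
    have h1 := comp_transl p N ev
      (Polynomial.CAlgHom : MvPolynomial (Fin n) k →ₐ[k] (MvPolynomial (Fin n) k)[X]) X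
    have h2 : ev X = 0 := aeval_X _
    rw [h2, transl_zero p N h.pos, ← expAct_eq] at h1
    have h3 := congrArg (fun F => F f) h1
    have h4 : ev (expAct p N f) = ev (Polynomial.C f) := h3
    have h5 : ev (Polynomial.C f) = f := aeval_C _ _
    have h6 : ev (expAct p N f) = eval 0 (expAct p N f) :=
      congrFun (coe_aeval_eq_eval (0 : MvPolynomial (Fin n) k)) (expAct p N f)
    rw [← h6, h4, h5, sub_self]

end Pool.Agent.MP_b525bf_ag.Gam
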