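import Pool.Agent.Lib.MP_b525bf_ag_h42.Gam.GNorm

/-!
The family of invariants of a finite subgroup scheme of the additive group is good.
-/

set_option linter.style.haveILetI false

namespace Pool.Agent.MP_b525bf_ag.Gam

open Polynomial AdjoinRoot Comod

variable {k K : Type} [Field k] [Field K] [Algebra k K]
variable {p : ℕ} {P : k[X]} (g : Grp p P) (c : Coaction k (PR K P))

/-- The data from which the initial family is built. -/
structure InitG (N : Fam k K ℤ) (F : ℕ → Submodule k K) : Prop where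
  adm : AdmG g c N
  one_neg : ∀ d : ℤ, d ≤ 0 → (1 : K) ∈ N.s d
  fg : N.alg.FG
  smooth : Algebra.FormallySmooth k N.alg
  F_le : ∀ i : ℕ, F i ≤ N.s i
  F_anti : ∀ i, F (i + 1) ≤ F i
  F_bot : ∃ L, ∀ i, L ≤ i → F i = ⊥
  lift : ∀ i, ∀ z ∈ F (i + 1), ∃ e ∈ F i, DK g c 1 e = z
  step : ∀ i, ∀ e ∈ F i, ∀ m, DK g c m e ∈ F (i + m)
  gen : N.alg ≤ Algebra.adjoin k
    ({AddMonoidAlgebra.single (-1 : ℤ) (1 : K)} ∪
      {G | ∃ i : ℕ, ∃ x ∈ F i, G = AddMonoidAlgebra.single (i : ℤ) x})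
  ne : ∃ z ∈ F 1, z ≠ 0

namespace InitG

variable {g c} {N : Fam k K ℤ} {F : ℕ → Submodule k K} (h : InitG g c N F)

include h

/-- The element of positive degree not in `Q` gives a good direction. -/
lemma exists_direction (Q : Ideal N.alg) {d : ℤ} (hd : 0 < d) {x : K} (hx : x ∈ N.s d)
    (hxQ : N.el hx ∉ Q) :
    ∃ i : ℕ, ∃ e ∈ F i, (∀ (b : ℤ) (hz : DK g c 1 e ∈ N.s b), b = i + 1 → N.el hz ∉ Q) ∧
      ∀ j : ℕ, i + 2 ≤ j → ∀ z ∈ F j, ∀ (b : ℤ) (hz : z ∈ N.s b), b = j → N.el hz ∈ Q := by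
  classical
  set Pr : ℕ → Prop := fun i => ∃ z, ∃ hz : z ∈ F i, N.el (h.F_le i hz) ∉ Q with hPr
  have hex : ∃ i, 1 ≤ i ∧ Pr i := by
    by_contra hcon
    push Not at hcon
    apply hxQ
    refine H53.pos_mem_of_gen N Q _ h.gen ?_ hd hx
    rintro G (hG | ⟨i, y, hy, rfl⟩)
    · exact ⟨-1, 1, hG, h.adm.t_mem, fun h0 => absurd h0 (by norm_num)⟩
    · refine ⟨i, y, rfl, h.F_le i hy, fun hi => ?_⟩
      by_contra hnot
      exact hcon i (by exact_mod_cast hi) ⟨y, hy, hnot⟩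
  obtain ⟨L, hL⟩ := h.F_bot
  have hPL : ∀ i, Pr i → i ≤ L := by
    rintro i ⟨z, hz, hzQ⟩
    by_contra hlt
    push Not at hlt
    have h0 : z = 0 := by
      have := hz
      rw [hL i hlt.le] at this
      exact (Submodule.mem_bot k).1 this
    subst h0
    apply hzQ
    have : N.el (h.F_le i hz) = 0 := by
      apply Subtype.ext
      exact AddMonoidAlgebra.single_zero _
    rw [this]
    exact Ideal.zero_mem _
  obtain ⟨i0, hi0, hPi0⟩ := hex
  set m := Nat.findGreatest Pr L with hm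
  have hPm : Pr m := Nat.findGreatest_spec (hPL i0 hPi0) hPi0
  have hm1 : 1 ≤ m := hi0.trans (Nat.le_findGreatest (hPL i0 hPi0) hPi0)
  have hmax : ∀ i, m < i → ¬ Pr i := by
    intro i hi hPi
    exact Nat.findGreatest_is_greatest hi (hPL i hPi) hPi
  clear_value m
  obtain ⟨i, rfl⟩ : ∃ i, m = i + 1 := ⟨m - 1, by omega⟩
  obtain ⟨z, hz, hzQ⟩ := hPm
  obtain ⟨e, he, hez⟩ := h.lift i z hz
  refine ⟨i, e, he, ?_, ?_⟩
  · intro b hb hbi h1
    apply hzQ
    convert h1 using 1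
    exact Fam.el_eq _ _ _ (by rw [hbi]; push_cast; rfl) hez.symm
  · intro j hj z' hz' b hb hbj
    by_contra hnot
    apply hmax j (by omega)
    refine ⟨z', hz', ?_⟩
    intro h2
    apply hnot
    convert h2 using 1
    exact Fam.el_eq _ _ _ hbj rfl

/-- The charts. -/
lemma exists_chart (q : Ideal (fixG c N).alg) [q.IsPrime] {d : ℤ} (hd : 0 < d)
    {x : K} (hx : x ∈ (fixG c N).s d) (hx0 : x ≠ 0) (hxq : (fixG c N).el hx ∉ q) :
    ∃ (b : ℤ) (y : K) (hy : y ∈ (fixG c N).s b), (fixG c N).el hy ∉ q ∧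
      Algebra.FormallySmooth k ((fixG c N).loc ((fixG c N).mul' hx hy)).alg := by
  classical
  obtain ⟨Q, hQprime, hQ⟩ : ∃ Q : Ideal N.alg, Q.IsPrime ∧
      Q.comap (gIncl c N).toRingHom = q := by
    letI := (gIncl c N).toRingHom.toAlgebra
    haveI : Algebra.IsIntegral (fixG c N).alg N.alg :=
      algebraMap_isIntegral_iff.1 (gIncl_isIntegral g h.adm)
    refine Ideal.exists_ideal_over_prime_of_isIntegral_of_isDomain (S := N.alg) q ?_
    have h1 : RingHom.ker (algebraMap (fixG c N).alg N.alg) = ⊥ :=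
      (RingHom.injective_iff_ker_eq_bot _).1 gIncl_injective
    rw [h1]
    exact bot_le
  have hincl : ∀ {b : ℤ} {y : K} (hy : y ∈ (fixG c N).s b),
      (fixG c N).el hy ∈ q ↔ N.el hy.1 ∈ Q := by
    intro b y hy
    rw [← hQ, Ideal.mem_comap]
    exact Iff.rfl
  have hxQ : N.el hx.1 ∉ Q := fun hmem => hxq ((hincl hx).2 hmem)
  obtain ⟨i, e, he, hz, hmax⟩ := h.exists_direction Q hd hx.1 hxQ
  have heN : e ∈ N.s (i : ℤ) := h.F_le i he
  have hd0 := PN_natDegree g h.adm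
  -- the determinant and its norm
  have hδ := dt_mem g h.adm heN
  have hc0N := nm_mem g h.adm hδ
  have hc0fix := nm_fixed g h.adm hδ
  set c0 : K := nm g c (dt g c e) with hc0
  have hc0Q : N.el hc0N ∉ Q := by
    have h1 := (coactN g h.adm).point_lemma Q (N.el heN) (by rw [hd0]; exact g.deg) (by
        rw [cf_muN_el]
        exact hz _ _ (by push_cast; rfl)) (by
        intro l hl
        rw [cf_muN_el, cf_muN_el]
        exact hmax (i + 1 + l) (by omega) _ (h.step _ _ (h.step _ _ he 1) l) _ _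
          (by push_cast; rfl)) (by
        intro m hm l
        rw [cf_muN_el, cf_muN_el]
        exact hmax (i + m + l) (by omega) _ (h.step _ _ (h.step _ _ he m) l) _ _
          (by push_cast; rfl))
    rw [det_pow_eq g h.adm heN, det_mat_eq] at h1
    exact h1
  have hdvd : N.el hδ ∣ N.el hc0N := by
    have h1 := (coactN g h.adm).dvd_det (N.el hδ)
    rwa [det_mat_eq] at h1
  have hy : c0 ∈ (fixG c N).s _ := ⟨hc0N, hc0fix⟩
  refine ⟨_, c0, hy, fun hmem => hc0Q ((hincl hy).1 hmem), ?_⟩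
  have hc00 : c0 ≠ 0 := by
    intro h0
    apply hc0Q
    have : N.el hc0N = 0 := by
      apply Subtype.ext
      rw [Fam.coe_el, h0]
      exact AddMonoidAlgebra.single_zero _
    rw [this]
    exact Ideal.zero_mem _
  have hxy0 : x * c0 ≠ 0 := mul_ne_zero hx0 hc00
  set hxy := (fixG c N).mul' hx hy with hhxy
  rw [fixG_loc N hxy hxy0]
  have hadm := h.adm.loc g hxy.1 hxy.2
  refine smooth_fixG g hadm (H53.formallySmooth_loc N hxy.1 hxy0 h.smooth)
    ((N.loc hxy.1).el (N.le_loc _ _ heN)) ?_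
  rw [det_pow_eq g hadm (N.le_loc _ _ heN)]
  have hunit : IsUnit ((N.toLoc hxy.1) (N.el hxy.1)) := by
    rw [Fam.toLoc_el]
    refine IsUnit.of_mul_eq_one ((N.loc hxy.1).el (N.inv_mem_loc hxy.1 hxy0)) ?_
    rw [Fam.el_mul, ← Fam.el_one]
    exact Fam.el_eq _ _ _ (by simp) (mul_inv_cancel₀ hxy0)
  have hdvd2 : N.el hδ ∣ N.el hxy.1 := by
    have h1 : N.el hxy.1 = N.el hx.1 * N.el hc0N := (Fam.el_mul N hx.1 hc0N).symm
    rw [h1]
    exact hdvd.mul_left _
  have hfin : IsUnit ((N.toLoc hxy.1) (N.el hδ)) :=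
    isUnit_of_dvd_unit (map_dvd (N.toLoc hxy.1) hdvd2) hunit
  exact hfin

theorem good : ∃ w : ℕ, 0 < w ∧ Good (fixG c N) w := by
  have hfg : (fixG c N).alg.FG := fixG_fg g h.adm h.fg
  obtain ⟨w, hw, hstab⟩ := H53.exists_stab (fixG c N) hfg
  refine ⟨w, hw, hfg, ?_, hstab, ?_, ?_⟩
  · intro d hd x hx hx0
    refine Fam.formallySmooth_loc_of_cover _ hfg hx hx0 ?_
    intro q hq hxq
    exact h.exists_chart q hd hx hx0 hxq
  · intro d hd
    exact ⟨h.one_neg d hd, by rw [map_one, map_one]⟩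
  · obtain ⟨z, hz, hz0⟩ := h.ne
    have hzN : z ∈ N.s 1 := by
      have := h.F_le 1 hz
      exact_mod_cast this
    refine ⟨P.natDegree * 1, ?_, nm g c z, ⟨nm_mem g h.adm hzN, nm_fixed g h.adm hzN⟩,
      nm_ne_zero g hz0⟩
    have := g.deg
    have h2 : (0 : ℤ) < P.natDegree := by exact_mod_cast (pos_of_gt this)
    linarith

end InitG

end Pool.Agent.MP_b525bf_ag.Gam
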