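import Pool.Agent.Lib.MP_b525bf_ag_h42.Gam.GGood
import Pool.Agent.Lib.MP_b525bf_ag_h42.Gam.Defs
import Pool.Agent.Lib.MP_b525bf_ag_helper53.Initial

/-!
The initial good family of a linear action of a finite subgroup scheme of the additive group.
-/

set_option linter.style.haveILetI false

namespace Pool.Agent.MP_b525bf_ag.Gam

open Polynomial AdjoinRoot Comod H53

section Mult

variable {k K : Type} [Field k] [Field K] [Algebra k K]
variable {p : ℕ} {P : k[X]} (g : Grp p P) (c : Coaction k (PR K P))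

include g in
lemma cf_root_pow_const (l m : ℕ) : ∃ r : k,
    cf (g.monic.map (algebraMap k K)) m (root (PR K P) ^ l) = algebraMap k K r ∧
      (l < m → r = 0) := by
  have hPK : (PR K P).Monic := g.monic.map _
  refine ⟨if m ≤ l then (X ^ l %ₘ P).coeff m else 0, ?_, fun hl => if_neg (by omega)⟩
  have h1 : root (PR K P) ^ l = mk (PR K P) (X ^ l) := by rw [map_pow, mk_X]
  split_ifs with hm
  · have h2 : (X ^ l : K[X]) = (X ^ l : k[X]).map (algebraMap k K) := by simp
    rw [h1, cf_mk, h2, ← map_modByMonic _ g.monic, coeff_map]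
  · rw [map_zero]
    by_cases hl : l < (PR K P).natDegree
    · rw [cf_root_pow hPK hl, if_neg (by omega)]
    · exact cf_of_ge hPK (by omega) _

/-- The part of a family on which the coaction is graded. -/
def stabFam (N : Fam k K ℤ) (t_mem : (1 : K) ∈ N.s (-1)) : Fam k K ℤ where
  s a :=
    { carrier := {x | x ∈ N.s a ∧ ∀ m : ℕ, DK g c m x ∈ N.s (a + m)}
      add_mem' := fun hx hy => ⟨Submodule.add_mem _ hx.1 hy.1, fun m => by
        rw [map_add]; exact Submodule.add_mem _ (hx.2 m) (hy.2 m)⟩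
      zero_mem' := ⟨Submodule.zero_mem _, fun m => by rw [map_zero]; exact Submodule.zero_mem _⟩
      smul_mem' := fun r x hx => ⟨Submodule.smul_mem _ r hx.1, fun m => by
        rw [map_smul]; exact Submodule.smul_mem _ r (hx.2 m)⟩ }
  one' := ⟨N.one', fun m => by
    have h0 : 0 < (PR K P).natDegree := by rw [PK_natDegree g]; exact pos_of_gt g.deg
    have h1 : DK g c m 1 = if m = 0 then 1 else 0 := by
      rw [DK_apply, map_one, ← map_one (of (PR K P)), cf_of _ h0]
    rw [h1]
    split_ifs with hm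
    · subst hm; simpa using N.one'
    · exact Submodule.zero_mem _⟩
  mul' := by
    rintro a b x y ⟨hx, hx'⟩ ⟨hy, hy'⟩
    refine ⟨N.mul' hx hy, fun m => ?_⟩
    have hPK : (PR K P).Monic := g.monic.map _
    have hdown : ∀ (j : ℕ) (e : ℤ) (z : K), z ∈ N.s (e + j) → z ∈ N.s e := by
      intro j
      induction j with
      | zero => intro e z hz; simpa using hz
      | succ j ih =>
        intro e z hz
        refine ih e z ?_
        have := N.mul' t_mem hz
        rw [one_mul] at this
        convert this using 2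
        push_cast; ring
    have e0 : c.μ x * c.μ y =
        (∑ i ∈ Finset.range (PR K P).natDegree, of _ (cf hPK i (c.μ x)) * root _ ^ i) *
        (∑ i ∈ Finset.range (PR K P).natDegree, of _ (cf hPK i (c.μ y)) * root _ ^ i) := by
      rw [sum_cf, sum_cf]
    rw [DK_apply, map_mul, e0, Finset.sum_mul_sum, map_sum]
    refine Submodule.sum_mem _ fun i _ => ?_
    rw [map_sum]
    refine Submodule.sum_mem _ fun j _ => ?_
    have h1 : of (PR K P) (cf hPK i (c.μ x)) * root (PR K P) ^ i *
        (of (PR K P) (cf hPK j (c.μ y)) * root (PR K P) ^ j) =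
        of (PR K P) (cf hPK i (c.μ x) * cf hPK j (c.μ y)) * root (PR K P) ^ (i + j) := by
      rw [map_mul, pow_add]; ring
    rw [h1, cf_of_mul]
    obtain ⟨r, hr, hr0⟩ := cf_root_pow_const (K := K) g (i + j) m
    rw [hr]
    by_cases hm : i + j < m
    · rw [hr0 hm, map_zero, mul_zero]; exact Submodule.zero_mem _
    · rw [mul_comm _ (algebraMap k K r), ← Algebra.smul_def]
      refine Submodule.smul_mem _ _ ?_
      obtain ⟨l, hl⟩ := Nat.exists_eq_add_of_le (not_lt.1 hm)
      refine hdown l _ _ ?_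
      have h2 := N.mul' (hx' i) (hy' j)
      rw [DK_apply, DK_apply] at h2
      convert h2 using 2
      have : (i : ℤ) + j = m + l := by exact_mod_cast hl
      linarith

lemma DK_one (m : ℕ) : DK g c m 1 = if m = 0 then 1 else 0 := by
  have h0 : 0 < (PR K P).natDegree := by rw [PK_natDegree g]; exact pos_of_gt g.deg
  rw [DK_apply, map_one, ← map_one (of (PR K P)), cf_of _ h0]

lemma DK_one_mem (N : Fam k K ℤ) (t_mem : (1 : K) ∈ N.s (-1)) (m : ℕ) :
    DK g c m 1 ∈ N.s (-1 + m) := by
  rw [DK_one]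
  split_ifs with hm
  · subst hm
    rw [Nat.cast_zero, add_zero]
    exact t_mem
  · exact Submodule.zero_mem _

/-- Stability under the graded coaction can be checked on generators. -/
lemma admG_of_gens (N : Fam k K ℤ) (t_mem : (1 : K) ∈ N.s (-1))
    (S : Set (AddMonoidAlgebra K ℤ)) (hS : N.alg ≤ Algebra.adjoin k S)
    (hgen : ∀ G ∈ S, ∃ (a : ℤ) (x : K), G = AddMonoidAlgebra.single a x ∧ x ∈ N.s a ∧
      ∀ m : ℕ, DK g c m x ∈ N.s (a + m)) : AdmG g c N where
  t_mem := t_mem
  D_mem := by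
    have h1 : N.alg ≤ (stabFam g c N t_mem).alg := by
      refine hS.trans (Algebra.adjoin_le ?_)
      intro G hG
      obtain ⟨a, x, rfl, hx⟩ := hgen G hG
      exact Fam.single_mem_alg.2 hx
    intro a x hx m
    exact (Fam.single_mem_alg.1 (h1 (Fam.single_mem_alg.2 hx))).2 m

end Mult

/-! ### The linear case -/

section Linear

variable {k : Type} [Field k] {n : ℕ} {p : ℕ} {N : Matrix (Fin n) (Fin n) k} {P : k[X]}

/-- The group scheme underlying the data. -/
lemma Data.grp (h : Data p N P) (hq : 1 < P.natDegree) : Grp p P :=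
  ⟨h.prime, h.charP, h.monic, hq, h.add⟩

lemma Data.le_natDegree (h : Data p N P) (hq : 1 < P.natDegree) : p ≤ P.natDegree := by
  obtain ⟨e, he⟩ := h.add P.natDegree (by
    have : P.coeff P.natDegree = 1 := h.monic
    rw [this]; exact one_ne_zero)
  rw [he] at hq ⊢
  have he0 : e ≠ 0 := by
    rintro rfl
    rw [pow_zero] at hq
    exact lt_irrefl _ hq
  exact Nat.le_self_pow he0 p

/-- The field of rational functions. -/
abbrev KK (k : Type) [Field k] (n : ℕ) : Type := FractionRing (MvPolynomial (Fin n) k)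

/-- The coaction on rational functions. -/
noncomputable abbrev Data.cK (h : Data p N P) : Coaction k (PR (KK k n) P) := h.co (K := KK k n)

lemma lin_eq (v : Fin n → k) : lin k n v = algebraMap (MvPolynomial (Fin n) k) (KK k n) (lf v) :=
  lin_apply v

lemma Data.DK_lin (h : Data p N P) (hq : 1 < P.natDegree) (m : ℕ) (v : Fin n → k) :
    DK (h.grp hq) h.cK m (lin k n v) =
      if m < p then ((m.factorial : k)⁻¹) • lin k n ((N ^ m).mulVec v) else 0 := by
  have hPK : (PR (KK k n) P).Monic := h.monic.map _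
  have hle := h.le_natDegree hq
  have hd : (PR (KK k n) P).natDegree = P.natDegree := h.monic.natDegree_map _
  rw [DK_apply]
  have h1 : h.cK.μ (lin k n v) = muB p N P (KK k n) (lf v) := by
    rw [lin_eq]
    exact muK_algebraMap P h.pos h.fac h.nil h.monic (lf v)
  rw [h1, muB, transl_lf, map_sum]
  have h2 : ∀ l ∈ Finset.range p, cf hPK m (((l.factorial : k)⁻¹) •
      (((ofAlgHom k (PR (KK k n) P)).comp
        (IsScalarTower.toAlgHom k (MvPolynomial (Fin n) k) (KK k n))) (lf ((N ^ l).mulVec v)) *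
          root (PR (KK k n) P) ^ l)) =
      if m = l then ((l.factorial : k)⁻¹) • lin k n ((N ^ l).mulVec v) else 0 := by
    intro l hl
    have hl' := Finset.mem_range.1 hl
    have h3 : ((ofAlgHom k (PR (KK k n) P)).comp
        (IsScalarTower.toAlgHom k (MvPolynomial (Fin n) k) (KK k n))) (lf ((N ^ l).mulVec v)) =
        of (PR (KK k n) P) (lin k n ((N ^ l).mulVec v)) := by
      rw [lin_eq]; rfl
    rw [h3, Algebra.smul_def, AdjoinRoot.algebraMap_eq', RingHom.comp_apply, cf_of_mul, cf_of_mul,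
      cf_root_pow hPK (by omega)]
    split_ifs
    · rw [mul_one, Algebra.smul_def]
    · rw [mul_zero, mul_zero]
  rw [Finset.sum_congr rfl h2, Finset.sum_ite_eq]
  simp only [Finset.mem_range]

variable (N) in
lemma linFlag_one_add (i : ℕ) (x : KK k n) :
    x ∈ linFlag (1 + N) i ↔ ∃ u, lin k n ((N ^ i).mulVec u) = x := by
  rw [mem_linFlag, add_sub_cancel_left]
  have : ∀ u, (N.mulVecLin ^ i) u = (N ^ i).mulVec u := by
    intro u
    induction i with
    | zero => simp
    | succ i ih => rw [pow_succ', Module.End.mul_apply, ih, pow_succ', ← Matrix.mulVec_mulVec]; rfl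
  simp only [this]

theorem Data.initG (h : Data p N P) (hq : 1 < P.natDegree) (hN0 : N ≠ 0) :
    InitG (h.grp hq) h.cK (rees (linFlag (1 + N))) (linFlag (1 + N)) := by
  have hnil : (N.mulVecLin : (Fin n → k) →ₗ[k] (Fin n → k)) ^ p = 0 := by
    apply LinearMap.ext
    intro u
    have : ∀ i : ℕ, (N.mulVecLin ^ i) u = (N ^ i).mulVec u := by
      intro i
      induction i with
      | zero => simp
      | succ i ih => rw [pow_succ', Module.End.mul_apply, ih, pow_succ', ← Matrix.mulVec_mulVec]; rfl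
    rw [this, h.nil, Matrix.zero_mulVec]; rfl
  have hbot : ∀ i, p ≤ i → flag (1 + N) i = ⊥ := by
    intro i hi
    rw [flag, LinearMap.range_eq_bot, add_sub_cancel_left]
    obtain ⟨j, rfl⟩ := Nat.exists_eq_add_of_le hi
    rw [pow_add, hnil, zero_mul]
  have hstep : ∀ i, ∀ e ∈ linFlag (1 + N) i, ∀ m,
      DK (h.grp hq) h.cK m e ∈ linFlag (1 + N) (i + m) := by
    intro i e he m
    obtain ⟨u, rfl⟩ := (linFlag_one_add N i e).1 he
    rw [h.DK_lin hq]
    split_ifs with hm
    · refine Submodule.smul_mem _ _ ((linFlag_one_add N _ _).2 ⟨u, ?_⟩)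
      rw [Matrix.mulVec_mulVec, ← pow_add, add_comm m i]
    · exact Submodule.zero_mem _
  have hpoly : Nonempty (MvPolynomial (Option (Fin n)) k ≃ₐ[k] (rees (linFlag (1 + N))).alg) := by
    obtain ⟨b, w, hbw, hspan⟩ := exists_adapted_basis n (flag (1 + N)) (flag_anti (1 + N))
      (by rw [flag, pow_zero]; exact LinearMap.range_id) p hbot
    obtain ⟨E, hE, hEX⟩ := exists_coordinates b
    refine rees_poly E hE w (fun j => ?_) (fun i => ?_)
    · rw [hEX]
      exact ⟨b j, hbw j, rfl⟩
    · rw [linFlag]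
      refine (Submodule.map_mono (hspan i)).trans ?_
      rw [Submodule.map_span]
      refine Submodule.span_mono ?_
      rintro _ ⟨v, ⟨j, hj, rfl⟩, rfl⟩
      exact ⟨j, hj, (hEX j).symm⟩
  obtain ⟨hfg, hsm⟩ := rees_fg_smooth hpoly
  have hadm : AdmG (h.grp hq) h.cK (rees (linFlag (1 + N))) := by
    refine admG_of_gens (h.grp hq) h.cK _ t_mem_rees (gens (linFlag (1 + N)))
      (by rw [rees_alg]) ?_
    rintro G (hG | ⟨i, x, hx, rfl⟩)
    · exact ⟨-1, 1, hG, t_mem_rees, fun m => DK_one_mem (h.grp hq) h.cK _ t_mem_rees m⟩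
    · refine ⟨i, x, rfl, F_le_rees i hx, fun m => ?_⟩
      have := F_le_rees _ (hstep i x hx m)
      push_cast at this
      exact this
  refine ⟨hadm, one_mem_rees, hfg, hsm, F_le_rees, ?_, ?_, ?_, hstep, ?_, ?_⟩
  · exact fun i => Submodule.map_mono (flag_anti (1 + N) i)
  · refine ⟨p, fun i hi => ?_⟩
    rw [linFlag, hbot i hi, Submodule.map_bot]
  · intro i z hz
    obtain ⟨u, rfl⟩ := (linFlag_one_add N _ _).1 hz
    refine ⟨lin k n ((N ^ i).mulVec u), (linFlag_one_add N _ _).2 ⟨u, rfl⟩, ?_⟩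
    rw [h.DK_lin hq, if_pos h.prime.one_lt, Nat.factorial_one, Nat.cast_one, inv_one, one_smul,
      pow_one, Matrix.mulVec_mulVec, pow_succ']
  · rw [rees_alg]
    exact le_rfl
  · by_contra hcon
    push Not at hcon
    apply hN0
    have h2 : ∀ v, N.mulVec v = 0 := by
      intro v
      have h1 := hcon _ ((linFlag_one_add N 1 _).2 ⟨v, rfl⟩)
      rw [map_eq_zero_iff _ lin_injective, pow_one] at h1
      exact h1
    apply Matrix.mulVec_injective
    funext v
    rw [h2, Matrix.zero_mulVec]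

/-! ### The invariant ring -/

lemma expAct_eq : expAct p N = transl p N
    (Polynomial.CAlgHom : MvPolynomial (Fin n) k →ₐ[k] (MvPolynomial (Fin n) k)[X]) X := by
  apply MvPolynomial.algHom_ext
  intro j
  rw [expAct, MvPolynomial.aeval_X, transl_X]
  refine Finset.sum_congr rfl fun l _ => ?_
  rw [← Finset.sum_mul, lf, Matrix.mulVec_single_one, ← smul_mul_assoc, ← map_smul,
    Finset.smul_sum]
  congr 1
  change _ = Polynomial.C _
  rw [map_sum]
  refine Finset.sum_congr rfl fun i _ => ?_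
  rw [MvPolynomial.smul_eq_C_mul, map_mul MvPolynomial.C, mul_assoc]
  rfl

lemma mem_gammaInv {f : MvPolynomial (Fin n) k} : f ∈ gammaInv p N P ↔
    P.map (algebraMap k (MvPolynomial (Fin n) k)) ∣ expAct p N f - Polynomial.C f := by
  rw [gammaInv, AlgHom.mem_equalizer, AlgHom.comp_apply, AlgHom.comp_apply,
    Ideal.Quotient.mkₐ_eq_mk, Ideal.Quotient.eq, Ideal.mem_span_singleton]
  rfl

lemma Data.mem_gammaInv_iff (h : Data p N P) (f : MvPolynomial (Fin n) k) :
    f ∈ gammaInv p N P ↔ h.cK.μ (algebraMap _ (KK k n) f) =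
      of _ (algebraMap (MvPolynomial (Fin n) k) (KK k n) f) := by
  have h1 : h.cK.μ (algebraMap _ (KK k n) f) = muB p N P (KK k n) f :=
    muK_algebraMap P h.pos h.fac h.nil h.monic f
  have hPB : (PR (MvPolynomial (Fin n) k) P).Monic := h.monic.map _
  have hPK : (PR (KK k n) P).Monic := h.monic.map _
  have hinj := map_injective hPB hPK
    (IsScalarTower.toAlgHom k (MvPolynomial (Fin n) k) (KK k n) : MvPolynomial (Fin n) k →+* KK k n)
    (map_PR _ P) (IsFractionRing.injective (MvPolynomial (Fin n) k) (KK k n))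
  have h2 : of _ (algebraMap (MvPolynomial (Fin n) k) (KK k n) f) =
      AdjoinRoot.map (IsScalarTower.toAlgHom k (MvPolynomial (Fin n) k) (KK k n) :
      MvPolynomial (Fin n) k →+* KK k n) (PR _ P) (PR (KK k n) P) (map_PR _ P).symm.dvd
      (of _ f) := by
    rw [AdjoinRoot.map_of]; rfl
  rw [h1, muB_eq_map, h2, hinj.eq_iff, mem_gammaInv]
  let q : (MvPolynomial (Fin n) k)[X] →ₐ[k] AdjoinRoot (PR (MvPolynomial (Fin n) k) P) :=
    (mkₐ (PR (MvPolynomial (Fin n) k) P)).restrictScalars k
  have h3 : transl p N (ofAlgHom k (PR (MvPolynomial (Fin n) k) P)) (root _) f =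
      AdjoinRoot.mk (PR (MvPolynomial (Fin n) k) P) (expAct p N f) := by
    have h4 := comp_transl p N q
      (Polynomial.CAlgHom : MvPolynomial (Fin n) k →ₐ[k] (MvPolynomial (Fin n) k)[X]) X
    rw [← expAct_eq] at h4
    exact (congrArg (fun F => F f) h4).symm
  rw [h3, ← mk_C, mk_eq_mk]

lemma Data.mem_fix_zero (h : Data p N P) (z : KK k n) :
    z ∈ (fixG h.cK (rees (linFlag (1 + N)))).s 0 ↔
      ∃ x ∈ gammaInv p N P, algebraMap _ _ x = z := by
  set B : Subalgebra k (KK k n) := (IsScalarTower.toAlgHom k (MvPolynomial (Fin n) k)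
    (KK k n)).range with hB
  constructor
  · rintro ⟨hz, hfix⟩
    have h1 : z ∈ B := by
      refine rees_le B (fun i => ?_) hz
      rintro _ ⟨v, -, rfl⟩
      rw [lin_apply]
      exact ⟨_, rfl⟩
    obtain ⟨x, rfl⟩ := h1
    exact ⟨x, (h.mem_gammaInv_iff x).2 hfix, rfl⟩
  · rintro ⟨x, hx, rfl⟩
    refine ⟨mem_rees_zero ?_, (h.mem_gammaInv_iff x).1 hx⟩
    have h1 : B ≤ Algebra.adjoin k (linFlag (1 + N) 0 : Set (KK k n)) := by
      rw [hB, ← Algebra.map_top, ← MvPolynomial.adjoin_range_X, AlgHom.map_adjoin]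
      refine Algebra.adjoin_mono ?_
      rintro _ ⟨_, ⟨j, rfl⟩, rfl⟩
      refine mem_linFlag.2 ⟨Pi.single j 1, ?_⟩
      rw [pow_zero, Module.End.one_apply, lin_apply]
      change _ = algebraMap _ _ _
      congr 1
      simp [Pi.single_apply]
    exact h1 ⟨x, rfl⟩

end Linear

end Pool.Agent.MP_b525bf_ag.Gam
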