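import Pool.Agent.Lib.MP_b525bf_ag_h42.Gam.GFam

/-!
Norms of homogeneous elements.
-/

set_option linter.style.haveILetI false

namespace Pool.Agent.MP_b525bf_ag.Gam

open Polynomial AdjoinRoot Comod

variable {k K : Type} [Field k] [Field K] [Algebra k K]

lemma prod_Tm {q : ℕ} (α : Fin q → ℤ) :
    ∏ m, (Tm (α m) : AddMonoidAlgebra K ℤ) = Tm (∑ m, α m) := by
  rw [AddMonoidAlgebra.prod_single, Finset.prod_const_one]

/-- The determinant of a matrix with homogeneous entries. -/
lemma det_single {q : ℕ} (α β : Fin q → ℤ) (w : Matrix (Fin q) (Fin q) K) :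
    (Matrix.of fun m j => (AddMonoidAlgebra.single (α m + β j) (w m j) :
      AddMonoidAlgebra K ℤ)).det = AddMonoidAlgebra.single (∑ m, α m + ∑ j, β j) w.det := by
  have h1 : (Matrix.of fun m j => (AddMonoidAlgebra.single (α m + β j) (w m j) :
      AddMonoidAlgebra K ℤ)) = Matrix.diagonal (fun m => Tm (α m)) *
      w.map (inc K K : K → AddMonoidAlgebra K ℤ) * Matrix.diagonal (fun j => Tm (β j)) := by
    ext1 m j
    rw [Matrix.mul_diagonal, Matrix.diagonal_mul, Matrix.of_apply, Matrix.map_apply, inc_apply,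
      AddMonoidAlgebra.single_mul_single, AddMonoidAlgebra.single_mul_single, one_mul, mul_one,
      add_zero]
  have h2 : (w.map (inc K K : K → AddMonoidAlgebra K ℤ)).det = inc K K w.det := by
    have := RingHom.map_det (inc K K : K →+* AddMonoidAlgebra K ℤ) w
    exact this.symm
  rw [h1, Matrix.det_mul, Matrix.det_mul, Matrix.det_diagonal, Matrix.det_diagonal, h2, prod_Tm,
    prod_Tm, inc_apply, AddMonoidAlgebra.single_mul_single, AddMonoidAlgebra.single_mul_single,
    one_mul, mul_one, add_zero]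

variable {p : ℕ} {P : k[X]} (g : Grp p P) {c : Coaction k (PR K P)} {N : Fam k K ℤ}

/-- The coaction on the algebra of the family, compared with the one on `K[T, T⁻¹]`. -/
lemma map_muN (h : AdmG g c N) (r : N.alg) :
    AdjoinRoot.map (N.alg.val : N.alg →+* AddMonoidAlgebra K ℤ) (PN P N h.t_mem) (PL K P)
      (PN_map g h.t_mem).symm.dvd (muN g h r) = muL c (r : AddMonoidAlgebra K ℤ) := by
  refine cf_ext (PT_monic g.monic _) fun m _ => ?_
  rw [cf_map (coactN g h).monic (PT_monic g.monic _) _ (PN_map g h.t_mem)]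
  exact coe_cf_muN g h r m

lemma root_PL : root (PL K P) = kap P (root (PR K P)) * of (PL K P) (Tm (-1)) := by
  rw [kap_root, mul_right_comm, ← map_mul, Tm_mul]
  have : (Tm (1 + -1) : AddMonoidAlgebra K ℤ) = 1 := rfl
  rw [this, map_one, one_mul]

/-- Entries of the matrix of multiplication by `μ x`. -/
lemma coe_mat_el (h : AdmG g c N) {a : ℤ} {x : K} (hx : x ∈ N.s a) (m j : ℕ) :
    ((cf (coactN g h).monic m (muN g h (N.el hx) * root _ ^ j) : N.alg) : AddMonoidAlgebra K ℤ) =
      AddMonoidAlgebra.single ((m : ℤ) + (a - j))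
        (cf (g.monic.map (algebraMap k K)) m (c.μ x * root _ ^ j)) := by
  have h1 := cf_map (coactN g h).monic (PT_monic g.monic (Tm (-1)))
    (N.alg.val : N.alg →+* AddMonoidAlgebra K ℤ) (PN_map g h.t_mem) m
    (muN g h (N.el hx) * root _ ^ j)
  have h2 : ((cf (coactN g h).monic m (muN g h (N.el hx) * root _ ^ j) : N.alg) :
      AddMonoidAlgebra K ℤ) = (N.alg.val : N.alg →+* AddMonoidAlgebra K ℤ)
      (cf (coactN g h).monic m (muN g h (N.el hx) * root _ ^ j)) := rfl
  rw [h2, ← h1, map_mul, map_pow, map_muN, AdjoinRoot.map_root, Fam.coe_el, muL_single, root_PL,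
    mul_pow]
  have h3 : kap P (c.μ x) * of (PL K P) (Tm a) *
      (kap P (root (PR K P)) ^ j * of (PL K P) (Tm (-1)) ^ j) =
      kap P (c.μ x * root (PR K P) ^ j) * of (PL K P) (Tm (a - j)) := by
    rw [map_mul, map_pow]
    have h4 : (Tm (a - j) : AddMonoidAlgebra K ℤ) = Tm a * Tm (-1) ^ j := by
      rw [Tm_pow, Tm_mul]
      congr 1
      ring
    rw [h4, map_mul, map_pow]
    ring
  rw [h3, cf_kap g.monic, add_comm (a - (j : ℤ))]

/-- The norm of an element of the field. -/
noncomputable def nm (c : Coaction k (PR K P)) (x : K) : K :=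
  (Matrix.of fun m j : Fin P.natDegree =>
    cf (g.monic.map (algebraMap k K)) (m : ℕ) (c.μ x * root _ ^ (j : ℕ))).det

lemma coe_det_mat (h : AdmG g c N) {a : ℤ} {x : K} (hx : x ∈ N.s a) :
    ((((coactN g h).mat (N.el hx)).det : N.alg) : AddMonoidAlgebra K ℤ) =
      AddMonoidAlgebra.single (P.natDegree * a) (nm g c x) := by
  have hd := PN_natDegree g h
  have h1 : ((((coactN g h).mat (N.el hx)).det : N.alg) : AddMonoidAlgebra K ℤ) =
      (((coactN g h).mat (N.el hx)).map (N.alg.val : N.alg →+* AddMonoidAlgebra K ℤ)).det :=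
    RingHom.map_det (N.alg.val : N.alg →+* AddMonoidAlgebra K ℤ) _
  rw [h1, ← Matrix.det_submatrix_equiv_self (finCongr hd.symm)]
  have h2 : ((((coactN g h).mat (N.el hx)).map
      (N.alg.val : N.alg →+* AddMonoidAlgebra K ℤ)).submatrix (finCongr hd.symm)
      (finCongr hd.symm)) = Matrix.of fun m j : Fin P.natDegree =>
      (AddMonoidAlgebra.single (((m : ℕ) : ℤ) + (a - ((j : ℕ) : ℤ)))
        ((Matrix.of fun m j : Fin P.natDegree =>
    cf (g.monic.map (algebraMap k K)) (m : ℕ) (c.μ x * root _ ^ (j : ℕ))) m j) :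
          AddMonoidAlgebra K ℤ) := by
    ext1 m j
    exact coe_mat_el g h hx m j
  rw [h2, det_single, nm]
  congr 1
  rw [Finset.sum_sub_distrib]
  simp

/-- The norm is homogeneous and belongs to the family. -/
lemma nm_mem (h : AdmG g c N) {a : ℤ} {x : K} (hx : x ∈ N.s a) :
    nm g c x ∈ N.s (P.natDegree * a) := by
  have h1 := ((coactN g h).mat (N.el hx)).det.2 (P.natDegree * a)
  rw [coe_det_mat, AddMonoidAlgebra.coeff_single, Finsupp.single_eq_same] at h1
  exact h1

lemma det_mat_eq (h : AdmG g c N) {a : ℤ} {x : K} (hx : x ∈ N.s a) :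
    ((coactN g h).mat (N.el hx)).det = N.el (nm_mem g h hx) :=
  Subtype.ext (coe_det_mat g h hx)

/-- The norm is invariant. -/
lemma nm_fixed (h : AdmG g c N) {a : ℤ} {x : K} (hx : x ∈ N.s a) :
    c.μ (nm g c x) = of _ (nm g c x) := by
  have h1 := (coactN g h).det_fixed (N.el hx)
  rw [det_mat_eq, muN_fixed_iff] at h1
  have h2 := h1 (P.natDegree * a)
  rw [Fam.coe_el, AddMonoidAlgebra.coeff_single, Finsupp.single_eq_same] at h2
  exact h2

lemma nm_ne_zero {x : K} (hx : x ≠ 0) : nm g c x ≠ 0 := by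
  have hPK : (PR K P).Monic := g.monic.map _
  have hd : (PR K P).natDegree = P.natDegree := PK_natDegree g
  have h1 : nm g c x = (lmat hPK (c.μ x)).det := by
    rw [← Matrix.det_submatrix_equiv_self (finCongr hd.symm)]
    rfl
  rw [h1, lmat_eq]
  haveI : Module.Finite K (AdjoinRoot (PR K P)) := hPK.finite_adjoinRoot
  rw [LinearMap.det_toMatrix]
  have h2 : IsUnit (Algebra.lmul K (AdjoinRoot (PR K P)) (c.μ x)) :=
    ((IsUnit.mk0 x hx).map c.μ).map _
  exact (h2.map (LinearMap.det : (AdjoinRoot (PR K P) →ₗ[K] AdjoinRoot (PR K P)) →* K)).ne_zero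

/-- The determinant of the powers of an element. -/
noncomputable def dt (c : Coaction k (PR K P)) (e : K) : K :=
  (Matrix.of fun m i : Fin P.natDegree => DK g c (m : ℕ) (e ^ (i : ℕ))).det

/-- The degree of the determinant. -/
def ddeg (q : ℕ) (b : ℤ) : ℤ := ∑ m : Fin q, ((m : ℕ) : ℤ) + ∑ i : Fin q, ((i : ℕ) : ℤ) * b

lemma coe_det_pow (h : AdmG g c N) {b : ℤ} {e : K} (he : e ∈ N.s b) :
    (((Matrix.of fun m i : Fin (PN P N h.t_mem).natDegree =>
      cf (coactN g h).monic (m : ℕ) (muN g h (N.el he) ^ (i : ℕ))).det : N.alg) :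
        AddMonoidAlgebra K ℤ) = AddMonoidAlgebra.single (ddeg P.natDegree b) (dt g c e) := by
  have hd := PN_natDegree g h
  set W : Matrix (Fin (PN P N h.t_mem).natDegree) (Fin (PN P N h.t_mem).natDegree) N.alg :=
    Matrix.of fun m i => cf (coactN g h).monic (m : ℕ) (muN g h (N.el he) ^ (i : ℕ)) with hW
  have h1 : ((W.det : N.alg) : AddMonoidAlgebra K ℤ) =
      (W.map (N.alg.val : N.alg →+* AddMonoidAlgebra K ℤ)).det :=
    RingHom.map_det (N.alg.val : N.alg →+* AddMonoidAlgebra K ℤ) _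
  rw [h1, ← Matrix.det_submatrix_equiv_self (finCongr hd.symm)]
  have h2 : ((W.map (N.alg.val : N.alg →+* AddMonoidAlgebra K ℤ)).submatrix (finCongr hd.symm)
      (finCongr hd.symm)) = Matrix.of fun m i : Fin P.natDegree =>
      (AddMonoidAlgebra.single (((m : ℕ) : ℤ) + ((i : ℕ) : ℤ) * b)
        ((Matrix.of fun m i : Fin P.natDegree => DK g c (m : ℕ) (e ^ (i : ℕ))) m i) :
          AddMonoidAlgebra K ℤ) := by
    ext1 m i
    change ((cf (coactN g h).monic (m : ℕ) (muN g h (N.el he) ^ (i : ℕ)) : N.alg) :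
      AddMonoidAlgebra K ℤ) = AddMonoidAlgebra.single (((m : ℕ) : ℤ) + ((i : ℕ) : ℤ) * b)
        (DK g c (m : ℕ) (e ^ (i : ℕ)))
    rw [← map_pow, Fam.el_pow, coe_cf_muN, Fam.coe_el, cf_muL_single c g.monic, DK_apply]
    congr 1
    rw [nsmul_eq_mul, add_comm]
  rw [h2, det_single, dt, ddeg]

lemma dt_mem (h : AdmG g c N) {b : ℤ} {e : K} (he : e ∈ N.s b) :
    dt g c e ∈ N.s (ddeg P.natDegree b) := by
  have h1 := (Matrix.of fun m i : Fin (PN P N h.t_mem).natDegree =>
      cf (coactN g h).monic (m : ℕ) (muN g h (N.el he) ^ (i : ℕ))).det.2 (ddeg P.natDegree b)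
  rw [coe_det_pow, AddMonoidAlgebra.coeff_single, Finsupp.single_eq_same] at h1
  exact h1

lemma det_pow_eq (h : AdmG g c N) {b : ℤ} {e : K} (he : e ∈ N.s b) :
    (Matrix.of fun m i : Fin (PN P N h.t_mem).natDegree =>
      cf (coactN g h).monic (m : ℕ) (muN g h (N.el he) ^ (i : ℕ))).det =
        N.el (dt_mem g h he) :=
  Subtype.ext (coe_det_pow g h he)

end Pool.Agent.MP_b525bf_ag.Gam
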