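import Pool.Agent.Lib.MP_b525bf_ag_h42.Gam.Cf
import Pool.Agent.Lib.MP_b525bf_ag_h42.Gam.Exp
import Pool.Agent.Lib.MP_b525bf_ag_h40.Comod

/-!
The coaction of a finite subgroup scheme of the additive group on rational functions.
-/

set_option linter.style.haveILetI false

namespace Pool.Agent.MP_b525bf_ag.Gam

open Polynomial AdjoinRoot Comod

variable {k : Type} [Field k]

/-- The polynomial `P` with coefficients in `R`. -/
noncomputable abbrev PR (R : Type) [CommRing R] [Algebra k R] (P : k[X]) : R[X] :=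
  P.map (algebraMap k R)

lemma map_PR {R S : Type} [CommRing R] [CommRing S] [Algebra k R] [Algebra k S] (f : R →ₐ[k] S)
    (P : k[X]) : (PR R P).map (f : R →+* S) = PR S P := by
  rw [Polynomial.map_map]
  congr 1
  exact f.comp_algebraMap

lemma eval₂_PR {R S : Type} [CommRing R] [CommRing S] [Algebra k R] [Algebra k S] (f : R →ₐ[k] S)
    (P : k[X]) (x : S) : (PR R P).eval₂ (f : R →+* S) x = aeval x P := by
  rw [eval₂_map, f.comp_algebraMap]
  rfl

lemma aeval_root_PR {R : Type} [CommRing R] [Algebra k R] (P : k[X]) :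
    aeval (root (PR R P)) P = 0 := by
  have h := eval₂_root (PR R P)
  have h1 := eval₂_PR (ofAlgHom k (PR R P)) P (root (PR R P))
  rw [← h1]
  exact h

variable {n : ℕ} (p : ℕ) (N : Matrix (Fin n) (Fin n) k) (P : k[X])

section Base

/-- The automorphism of `B[s]/(P)` which is the point `exp (γ N)`. -/
noncomputable def psi (γ : AdjoinRoot (PR (MvPolynomial (Fin n) k) P)) :
    AdjoinRoot (PR (MvPolynomial (Fin n) k) P) →ₐ[k] AdjoinRoot (PR (MvPolynomial (Fin n) k) P) :=
  liftAlgHom _ (transl p N (ofAlgHom k _) γ) (root _) (by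
    rw [eval₂_PR]
    exact aeval_root_PR P)

lemma psi_of (γ : AdjoinRoot (PR (MvPolynomial (Fin n) k) P)) (b : MvPolynomial (Fin n) k) :
    psi p N P γ (of _ b) = transl p N (ofAlgHom k _) γ b := liftAlgHom_of _ _ _ _ _

lemma psi_root (γ : AdjoinRoot (PR (MvPolynomial (Fin n) k) P)) :
    psi p N P γ (root _) = root _ := liftAlgHom_root _ _ _ _

variable {p N}

lemma psi_psi (hp : 0 < p) (hfac : ∀ l < p, (l.factorial : k) ≠ 0) (hN : N ^ p = 0)
    {γ γ' : AdjoinRoot (PR (MvPolynomial (Fin n) k) P)} (h : psi p N P γ γ' = γ')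
    (h0 : γ + γ' = 0) (x : AdjoinRoot (PR (MvPolynomial (Fin n) k) P)) :
    psi p N P γ (psi p N P γ' x) = x := by
  have key : (psi p N P γ).comp (psi p N P γ') = AlgHom.id k _ := by
    refine AdjoinRoot.algHom_ext' ?_ ?_
    · have h1 : ((psi p N P γ).comp (psi p N P γ')).comp (ofAlgHom k _) =
          (psi p N P γ).comp (transl p N (ofAlgHom k _) γ') := by
        apply AlgHom.ext
        intro b
        rw [AlgHom.comp_apply, AlgHom.comp_apply, AlgHom.comp_apply]
        congr 1
        exact psi_of p N P γ' b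
      have h2 : (psi p N P γ).comp (ofAlgHom k _) = transl p N (ofAlgHom k _) γ := by
        apply AlgHom.ext
        intro b
        exact psi_of p N P γ b
      rw [h1, comp_transl, h2, h, transl_transl p N hfac hN, h0, transl_zero p N hp]
      rfl
    · rw [AlgHom.comp_apply, psi_root, psi_root]; rfl
  exact congrArg (fun f => f x) key

theorem transl_regular (hp : 0 < p) (hfac : ∀ l < p, (l.factorial : k) ≠ 0) (hN : N ^ p = 0)
    (hP : P.Monic) {b : MvPolynomial (Fin n) k} (hb : b ≠ 0)
    {x : AdjoinRoot (PR (MvPolynomial (Fin n) k) P)}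
    (hx : transl p N (ofAlgHom k _) (root _) b * x = 0) : x = 0 := by
  have hPB : (PR (MvPolynomial (Fin n) k) P).Monic := hP.map _
  have h1 : psi p N P (-root _) (root _) = root _ := psi_root _ _ _ _
  have h2 : psi p N P (root _) (-root _) = -root _ := by rw [map_neg, psi_root]
  rw [← psi_of] at hx
  have h3 := congrArg (psi p N P (-root _)) hx
  rw [map_mul, psi_psi P hp hfac hN h1 (neg_add_cancel _), map_zero] at h3
  have h4 : psi p N P (-root _) x = 0 := by
    refine cf_ext hPB fun m _ => ?_
    have h5 := congrArg (cf hPB m) h3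
    rw [cf_of_mul, map_zero] at h5
    rw [map_zero]
    exact (mul_eq_zero.1 h5).resolve_left hb
  have h6 := psi_psi P hp hfac hN h2 (add_neg_cancel _) x
  rw [← h6, h4, map_zero]

end Base

section Frac

variable {p N} {K : Type} [Field K] [Algebra (MvPolynomial (Fin n) k) K] [Algebra k K]
  [IsScalarTower k (MvPolynomial (Fin n) k) K] [IsFractionRing (MvPolynomial (Fin n) k) K]

variable (p N) (K) in
/-- The coaction on polynomials. -/
noncomputable def muB : MvPolynomial (Fin n) k →ₐ[k] AdjoinRoot (PR K P) :=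
  transl p N ((ofAlgHom k _).comp (IsScalarTower.toAlgHom k (MvPolynomial (Fin n) k) K)) (root _)

omit [IsFractionRing (MvPolynomial (Fin n) k) K] in
lemma muB_eq_map (b : MvPolynomial (Fin n) k) : muB p N P K b =
    AdjoinRoot.map (IsScalarTower.toAlgHom k (MvPolynomial (Fin n) k) K :
      MvPolynomial (Fin n) k →+* K) (PR _ P) (PR K P) (map_PR _ P).symm.dvd
      (transl p N (ofAlgHom k _) (root _) b) := by
  let f : AdjoinRoot (PR (MvPolynomial (Fin n) k) P) →ₐ[k] AdjoinRoot (PR K P) :=
    AdjoinRoot.mapAlgHom (IsScalarTower.toAlgHom k (MvPolynomial (Fin n) k) K) (PR _ P) (PR K P)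
      (map_PR _ P).symm.dvd
  have h1 := comp_transl p N f (ofAlgHom k _) (root (PR (MvPolynomial (Fin n) k) P))
  have h2 : f (root (PR (MvPolynomial (Fin n) k) P)) = root (PR K P) :=
    AdjoinRoot.map_root _ _ _ (map_PR _ P).symm.dvd
  have h3 : f.comp (ofAlgHom k (PR (MvPolynomial (Fin n) k) P)) =
      (ofAlgHom k _).comp (IsScalarTower.toAlgHom k (MvPolynomial (Fin n) k) K) := by
    apply AlgHom.ext
    intro x
    exact AdjoinRoot.map_of _ _ _ (map_PR _ P).symm.dvd _
  rw [h2, h3] at h1
  rw [muB, ← h1]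
  rfl

theorem isUnit_muB (hp : 0 < p) (hfac : ∀ l < p, (l.factorial : k) ≠ 0) (hN : N ^ p = 0)
    (hP : P.Monic) {b : MvPolynomial (Fin n) k} (hb : b ≠ 0) : IsUnit (muB p N P K b) := by
  have hPB : (PR (MvPolynomial (Fin n) k) P).Monic := hP.map _
  have hPK : (PR K P).Monic := hP.map _
  have hinjBK : Function.Injective (algebraMap (MvPolynomial (Fin n) k) K) :=
    IsFractionRing.injective _ _
  haveI : Module.Finite K (AdjoinRoot (PR K P)) := hPK.finite_adjoinRoot
  let L : AdjoinRoot (PR K P) →ₗ[K] AdjoinRoot (PR K P) := LinearMap.mulLeft K (muB p N P K b)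
  have hL : Function.Injective L := by
    rw [← LinearMap.ker_eq_bot, LinearMap.ker_eq_bot']
    intro g hg
    have hg' : muB p N P K b * g = 0 := hg
    obtain ⟨c, hc⟩ := IsLocalization.exist_integer_multiples
      (nonZeroDivisors (MvPolynomial (Fin n) k))
      (Finset.range (PR K P).natDegree) (fun m => cf hPK m g)
    have hc0 : algebraMap (MvPolynomial (Fin n) k) K c ≠ 0 := by
      rw [Ne, map_eq_zero_iff _ hinjBK]
      exact nonZeroDivisors.coe_ne_zero c
    have hint : ∀ m, ∃ r, (IsScalarTower.toAlgHom k (MvPolynomial (Fin n) k) K :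
        MvPolynomial (Fin n) k →+* K) r =
        cf hPK m (of _ (algebraMap (MvPolynomial (Fin n) k) K c) * g) := by
      intro m
      by_cases hm : m < (PR K P).natDegree
      · obtain ⟨r, hr⟩ := hc m (Finset.mem_range.2 hm)
        refine ⟨r, ?_⟩
        rw [cf_of_mul]
        rw [Algebra.smul_def] at hr
        exact hr
      · refine ⟨0, ?_⟩
        rw [cf_of_ge hPK (not_lt.1 hm), map_zero]
    have hdeg : (PR (MvPolynomial (Fin n) k) P).natDegree = (PR K P).natDegree := by
      rw [hP.natDegree_map, hP.natDegree_map]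
    obtain ⟨gB, hgB⟩ := exists_of_cf hPK
      (IsScalarTower.toAlgHom k (MvPolynomial (Fin n) k) K : MvPolynomial (Fin n) k →+* K)
      (map_PR _ P) hdeg _ hint
    have hinj := map_injective hPB hPK
      (IsScalarTower.toAlgHom k (MvPolynomial (Fin n) k) K : MvPolynomial (Fin n) k →+* K)
      (map_PR _ P) hinjBK
    have h1 : transl p N (ofAlgHom k _) (root _) b * gB = 0 := by
      apply hinj
      rw [map_mul, map_zero, ← muB_eq_map, hgB, mul_left_comm, hg', mul_zero]
    have h2 := transl_regular P hp hfac hN hP hb h1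
    rw [h2, map_zero] at hgB
    refine cf_ext hPK fun m _ => ?_
    have h3 := congrArg (cf hPK m) hgB
    rw [cf_of_mul, map_zero] at h3
    rw [map_zero]
    exact (mul_eq_zero.1 h3.symm).resolve_left hc0
  have hsurj : Function.Surjective L := LinearMap.injective_iff_surjective.1 hL
  obtain ⟨g, hg⟩ := hsurj 1
  exact IsUnit.of_mul_eq_one g hg

variable (K) in
/-- The coaction on rational functions. -/
noncomputable def muK (hp : 0 < p) (hfac : ∀ l < p, (l.factorial : k) ≠ 0) (hN : N ^ p = 0)
    (hP : P.Monic) : K →ₐ[k] AdjoinRoot (PR K P) :=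
  IsLocalization.liftAlgHom (M := nonZeroDivisors (MvPolynomial (Fin n) k)) (S := K)
    (f := muB p N P K) fun b => isUnit_muB P hp hfac hN hP (nonZeroDivisors.coe_ne_zero b)

lemma muK_algebraMap (hp : 0 < p) (hfac : ∀ l < p, (l.factorial : k) ≠ 0) (hN : N ^ p = 0)
    (hP : P.Monic) (b : MvPolynomial (Fin n) k) :
    muK P K hp hfac hN hP (algebraMap _ K b) = muB p N P K b := by
  rw [muK, IsLocalization.liftAlgHom_apply]
  exact IsLocalization.lift_eq _ _

end Frac

end Pool.Agent.MP_b525bf_ag.Gam
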