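import Pool.Agent.Lib.MP_b525bf_ag_h42.Gam.KAct

/-!
The coaction on rational functions is counital and coassociative.
-/

set_option linter.style.haveILetI false

namespace Pool.Agent.MP_b525bf_ag.Gam

open Polynomial AdjoinRoot Comod

variable {k : Type} [Field k]

/-- Polynomials whose exponents are powers of `p` are additive. -/
lemma additive_of_coeff (p : ℕ) [hp : Fact p.Prime] [CharP k p] {R : Type} [CommRing R]
    [Algebra k R] (Q : R[X]) (hQ : ∀ i, Q.coeff i ≠ 0 → ∃ e, i = p ^ e) : Additive Q := by
  intro A _ f x y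
  rcases subsingleton_or_nontrivial A with hA | hA
  · exact Subsingleton.elim _ _
  · haveI : CharP A p := charP_of_injective_ringHom (f.comp (algebraMap k R)).injective p
    rw [eval₂_eq_sum, eval₂_eq_sum, eval₂_eq_sum, Polynomial.sum_def, Polynomial.sum_def,
      Polynomial.sum_def, ← Finset.sum_add_distrib]
    refine Finset.sum_congr rfl fun i hi => ?_
    obtain ⟨e, rfl⟩ := hQ i (mem_support_iff.1 hi)
    rw [add_pow_char_pow, mul_add]

lemma additive_PR (p : ℕ) [hp : Fact p.Prime] [CharP k p] {P : k[X]}
    (hadd : ∀ i, P.coeff i ≠ 0 → ∃ e, i = p ^ e) (R : Type) [CommRing R] [Algebra k R] :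
    Additive (PR R P) := by
  refine additive_of_coeff (k := k) p _ fun i hi => hadd i fun h0 => hi ?_
  rw [coeff_map, h0, map_zero]

lemma aeval_add_of_additive {P : k[X]} (hP : Additive P) {A : Type} [CommRing A] [Algebra k A]
    (x y : A) : aeval (x + y) P = aeval x P + aeval y P :=
  hP A (algebraMap k A) x y

section

variable {n : ℕ} {K : Type} [Field K] [Algebra (MvPolynomial (Fin n) k) K] [Algebra k K]
  [IsScalarTower k (MvPolynomial (Fin n) k) K] [IsFractionRing (MvPolynomial (Fin n) k) K]

variable (n) in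
lemma frac_ext {A : Type} [CommRing A] [Algebra k A] {f g : K →ₐ[k] A}
    (h : f.comp (IsScalarTower.toAlgHom k (MvPolynomial (Fin n) k) K) =
      g.comp (IsScalarTower.toAlgHom k (MvPolynomial (Fin n) k) K)) : f = g := by
  have h1 : (f : K →+* A) = (g : K →+* A) := by
    refine IsLocalization.ringHom_ext (nonZeroDivisors (MvPolynomial (Fin n) k)) ?_
    ext x
    · exact congrArg (fun F => F (MvPolynomial.C x)) h
    · exact congrArg (fun F => F (MvPolynomial.X x)) h
  exact AlgHom.coe_ringHom_injective h1

/-- The data of a finite subgroup scheme of the additive group and a nilpotent matrix. -/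
structure Data (p : ℕ) (N : Matrix (Fin n) (Fin n) k) (P : k[X]) : Prop where
  prime : p.Prime
  charP : CharP k p
  nil : N ^ p = 0
  monic : P.Monic
  add : ∀ i, P.coeff i ≠ 0 → ∃ e, i = p ^ e

namespace Data

variable {p : ℕ} {N : Matrix (Fin n) (Fin n) k} {P : k[X]} (h : Data p N P)

include h

lemma pos : 0 < p := h.prime.pos

lemma fac (l : ℕ) (hl : l < p) : (l.factorial : k) ≠ 0 := by
  haveI := h.charP
  intro h0
  rw [CharP.cast_eq_zero_iff k p] at h0
  exact absurd ((Nat.Prime.dvd_factorial h.prime).1 h0) (by omega)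

lemma coeff_zero : P.coeff 0 = 0 := by
  by_contra h0
  obtain ⟨e, he⟩ := h.add 0 h0
  exact (pow_pos h.pos e).ne he

lemma natDegree_pos : 0 < P.natDegree := by
  rw [Nat.pos_iff_ne_zero]
  intro h0
  have h1 := h.monic.natDegree_eq_zero.1 h0
  have h2 := h.coeff_zero
  rw [h1, coeff_one_zero] at h2
  exact one_ne_zero h2

lemma additive : Additive P := by
  haveI := h.charP
  haveI : Fact p.Prime := ⟨h.prime⟩
  exact additive_of_coeff (k := k) p P h.add

variable (K) in
/-- The coaction on rational functions. -/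
noncomputable def mu : K →ₐ[k] AdjoinRoot (PR K P) := muK P K h.pos h.fac h.nil h.monic

omit h [IsFractionRing (MvPolynomial (Fin n) k) K] in
lemma muB_comp {A : Type} [CommRing A] [Algebra k A] (f : AdjoinRoot (PR K P) →ₐ[k] A) :
    f.comp (muB p N P K) = transl p N ((f.comp (ofAlgHom k _)).comp
      (IsScalarTower.toAlgHom k (MvPolynomial (Fin n) k) K)) (f (root _)) := by
  rw [muB, comp_transl, AlgHom.comp_assoc]

lemma mu_comp {A : Type} [CommRing A] [Algebra k A] (f : AdjoinRoot (PR K P) →ₐ[k] A) :
    (f.comp (h.mu K)).comp (IsScalarTower.toAlgHom k (MvPolynomial (Fin n) k) K) =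
      transl p N ((f.comp (ofAlgHom k _)).comp
        (IsScalarTower.toAlgHom k (MvPolynomial (Fin n) k) K)) (f (root _)) := by
  rw [← muB_comp]
  apply AlgHom.ext
  intro b
  exact congrArg f (muK_algebraMap P h.pos h.fac h.nil h.monic b)

lemma root_zero (R : Type) [CommRing R] [Algebra k R] :
    eval₂ (RingHom.id R) 0 (PR R P) = 0 := by
  change eval 0 (PR R P) = 0
  rw [← coeff_zero_eq_eval_zero, coeff_map, h.coeff_zero, map_zero]

omit h in
lemma aeval_root_P1 {R : Type} [CommRing R] [Algebra k R] :
    aeval (root (P1 (PR R P))) P = 0 := by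
  have h1 := eval₂_root (P1 (PR R P))
  have h2 : P1 (PR R P) = PR (AdjoinRoot (PR R P)) P := by
    rw [P1, PR, Polynomial.map_map]
    rfl
  have h3 := aeval_root_PR (R := AdjoinRoot (PR R P)) P
  rw [← h2] at h3
  exact h3

/-- The coaction on rational functions. -/
noncomputable def co : Coaction k (PR K P) where
  μ := h.mu K
  root_zero := h.root_zero K
  root_μ := by
    have h1 := eval₂_PR ((ofAlgHom k (P1 (PR K P))).comp (h.mu K)) P (root (P1 (PR K P)))
    rw [aeval_root_P1] at h1
    exact h1
  root_add := by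
    have h1 := eval₂_PR ((ofAlgHom k (P1 (PR K P))).comp (ofAlgHom k (PR K P))) P
      (root (P1 (PR K P)) + of (P1 (PR K P)) (root (PR K P)))
    rw [aeval_add_of_additive h.additive, aeval_root_P1, zero_add] at h1
    have h2 : aeval (of (P1 (PR K P)) (root (PR K P))) P = 0 := by
      have := aeval_algHom_apply (ofAlgHom k (P1 (PR K P))) (root (PR K P)) P
      rw [aeval_root_PR, map_zero] at this
      exact this
    rw [h2] at h1
    exact h1
  counit := by
    have h0 : eval₂ ((AlgHom.id k K : K →ₐ[k] K) : K →+* K) 0 (PR K P) = 0 := h.root_zero K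
    have key : (liftAlgHom (PR K P) (AlgHom.id k K) 0 h0).comp (h.mu K) = AlgHom.id k K := by
      refine frac_ext n ?_
      rw [h.mu_comp, liftAlgHom_root, transl_zero p N h.pos]
      apply AlgHom.ext
      intro b
      exact liftAlgHom_of (PR K P) (AlgHom.id k K) 0 h0 _
    intro r
    exact congrArg (fun F => F r) key
  coassoc := by
    have h0 : eval₂ (((ofAlgHom k (P1 (PR K P))).comp (h.mu K) :
        K →ₐ[k] AdjoinRoot (P1 (PR K P))) : K →+* _) (root (P1 (PR K P))) (PR K P) = 0 := by
      rw [eval₂_PR, aeval_root_P1]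
    have h0' : eval₂ (((ofAlgHom k (P1 (PR K P))).comp (ofAlgHom k (PR K P)) :
        K →ₐ[k] AdjoinRoot (P1 (PR K P))) : K →+* _)
        (root (P1 (PR K P)) + of (P1 (PR K P)) (root (PR K P))) (PR K P) = 0 := by
      rw [eval₂_PR, aeval_add_of_additive h.additive, aeval_root_P1, zero_add]
      have := aeval_algHom_apply (ofAlgHom k (P1 (PR K P))) (root (PR K P)) P
      rw [aeval_root_PR, map_zero] at this
      exact this
    have key : (liftAlgHom (PR K P) ((ofAlgHom k (P1 (PR K P))).comp (h.mu K))
        (root (P1 (PR K P))) h0).comp (h.mu K) =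
        (liftAlgHom (PR K P) ((ofAlgHom k (P1 (PR K P))).comp (ofAlgHom k (PR K P)))
        (root (P1 (PR K P)) + of (P1 (PR K P)) (root (PR K P))) h0').comp (h.mu K) := by
      refine frac_ext n ?_
      rw [h.mu_comp, h.mu_comp, liftAlgHom_root, liftAlgHom_root]
      have h1 : (liftAlgHom (PR K P) ((ofAlgHom k (P1 (PR K P))).comp (h.mu K))
          (root (P1 (PR K P))) h0).comp (ofAlgHom k _) =
          (ofAlgHom k (P1 (PR K P))).comp (h.mu K) := by
        apply AlgHom.ext
        intro b
        exact liftAlgHom_of (PR K P) _ _ h0 _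
      have h2 : (liftAlgHom (PR K P) ((ofAlgHom k (P1 (PR K P))).comp (ofAlgHom k (PR K P)))
          (root (P1 (PR K P)) + of (P1 (PR K P)) (root (PR K P))) h0').comp (ofAlgHom k _) =
          (ofAlgHom k (P1 (PR K P))).comp (ofAlgHom k (PR K P)) := by
        apply AlgHom.ext
        intro b
        exact liftAlgHom_of (PR K P) _ _ h0' _
      rw [h1, h2, h.mu_comp, transl_transl p N h.fac h.nil, add_comm (root (P1 (PR K P)))]
      rfl
    intro r
    exact congrArg (fun F => F r) key

end Data

end

end Pool.Agent.MP_b525bf_ag.Gam
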