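import Pool.Agent.Lib.MP_b525bf_ag_h42.Gam.KCo

/-!
From a coaction on a field `K` to a graded coaction on `K[T, T⁻¹]`, with the coordinate `s T⁻¹`.
-/

set_option linter.style.haveILetI false

namespace Pool.Agent.MP_b525bf_ag.Gam

open Polynomial AdjoinRoot Comod

variable {k K : Type} [Field k] [Field K] [Algebra k K]

/-- The homogenised polynomial. -/
noncomputable abbrev PT (R : Type) [CommRing R] [Algebra k R] (P : k[X]) (t : R) : R[X] :=
  (PR R P).scaleRoots t

lemma PT_monic {R : Type} [CommRing R] [Algebra k R] {P : k[X]} (hP : P.Monic) (t : R) :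
    (PT R P t).Monic := by
  rw [monic_scaleRoots_iff]
  exact hP.map _

lemma PT_natDegree {R : Type} [CommRing R] [Nontrivial R] [Algebra k R] {P : k[X]} (hP : P.Monic)
    (t : R) : (PT R P t).natDegree = P.natDegree := by
  rw [natDegree_scaleRoots, hP.natDegree_map]

lemma PT_map {R S : Type} [CommRing R] [CommRing S] [Nontrivial S] [Algebra k R] [Algebra k S]
    (f : R →ₐ[k] S) {P : k[X]} (hP : P.Monic) (t : R) :
    (PT R P t).map (f : R →+* S) = PT S P (f t) := by
  haveI : Nontrivial R := RingHom.domain_nontrivial (f : R →+* S)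
  rw [PT, map_scaleRoots, map_PR]
  · rfl
  · have : (PR R P).leadingCoeff = 1 := hP.map _
    rw [this, map_one]
    exact one_ne_zero

lemma PT_additive (p : ℕ) [Fact p.Prime] [CharP k p] {P : k[X]}
    (hadd : ∀ i, P.coeff i ≠ 0 → ∃ e, i = p ^ e) (R : Type) [CommRing R] [Algebra k R] (t : R) :
    Additive (PT R P t) := by
  refine additive_of_coeff (k := k) p _ fun i hi => hadd i fun h0 => hi ?_
  rw [coeff_scaleRoots, coeff_map, h0, map_zero, zero_mul]

lemma aeval_of_PT {R A : Type} [CommRing R] [Algebra k R] [CommRing A] [Algebra k A]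
    (f : R →ₐ[k] A) (P : k[X]) {t T : R} (hT : t * T = 1) {r : A}
    (hr : (PT R P t).eval₂ (f : R →+* A) r = 0) : aeval (f T * r) P = 0 := by
  have h1 := scaleRoots_eval₂_mul (p := PR R P) (f : R →+* A) (f T * r) t
  have h2 : (f : R →+* A) t * (f T * r) = r := by
    have : f t * f T = 1 := by rw [← map_mul, hT, map_one]
    change f t * (f T * r) = r
    rw [← mul_assoc, this, one_mul]
  rw [h2, hr] at h1
  rw [← eval₂_PR f P (f T * r)]
  have h3 : IsUnit (f t) := (IsUnit.of_mul_eq_one T hT).map f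
  exact ((h3.pow _).mul_right_eq_zero.1 h1.symm)

/-! ### The graded coaction -/

/-- The monomial `T ^ a`. -/
noncomputable abbrev Tm (a : ℤ) : AddMonoidAlgebra K ℤ := AddMonoidAlgebra.single a 1

lemma Tm_mul (a b : ℤ) : (Tm a : AddMonoidAlgebra K ℤ) * Tm b = Tm (a + b) := by
  rw [AddMonoidAlgebra.single_mul_single, one_mul]

lemma Tm_zero : (Tm 0 : AddMonoidAlgebra K ℤ) = 1 := rfl

lemma Tm_pow (a : ℤ) (n : ℕ) : (Tm a : AddMonoidAlgebra K ℤ) ^ n = Tm (n * a) := by
  rw [AddMonoidAlgebra.single_pow, one_pow, nsmul_eq_mul]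

variable (P : k[X])

/-- The polynomial over `K[T, T⁻¹]`. -/
noncomputable abbrev PL (K : Type) [Field K] [Algebra k K] (P : k[X]) :
    (AddMonoidAlgebra K ℤ)[X] := PT (AddMonoidAlgebra K ℤ) P (Tm (-1))

variable (k K) in
/-- The inclusion of the coefficients. -/
noncomputable def inc : K →ₐ[k] AddMonoidAlgebra K ℤ :=
  AddMonoidAlgebra.singleZeroAlgHom

lemma inc_apply (x : K) : inc k K x = AddMonoidAlgebra.single 0 x := rfl

lemma single_eq (a : ℤ) (x : K) : (AddMonoidAlgebra.single a x : AddMonoidAlgebra K ℤ) =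
    inc k K x * Tm a := by
  rw [inc_apply, AddMonoidAlgebra.single_mul_single, zero_add, mul_one]

/-- `s ↦ T · (s T⁻¹)`. -/
noncomputable def kap : AdjoinRoot (PR K P) →ₐ[k] AdjoinRoot (PL K P) :=
  liftAlgHom (PR K P) ((ofAlgHom k (PL K P)).comp (inc k K)) (of (PL K P) (Tm 1) * root _) (by
    rw [eval₂_PR]
    exact aeval_of_PT (ofAlgHom k (PL K P)) P (t := Tm (-1)) (T := Tm 1)
      (by rw [Tm_mul]; rfl) (eval₂_root _))

lemma kap_of (x : K) : kap P (of (PR K P) x) = of (PL K P) (inc k K x) :=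
  liftAlgHom_of _ _ _ _ _

lemma kap_root : kap P (root (PR K P)) = of (PL K P) (Tm 1) * root _ :=
  liftAlgHom_root _ _ _ _

/-- `T ^ a` in the target. -/
noncomputable def TmHom : Multiplicative ℤ →* AdjoinRoot (PL K P) :=
  (of (PL K P) : AddMonoidAlgebra K ℤ →* AdjoinRoot (PL K P)).comp (AddMonoidAlgebra.of K ℤ)

lemma TmHom_apply (a : ℤ) : TmHom P (Multiplicative.ofAdd a) = of (PL K P) (Tm a) := rfl

variable {P} (c : Coaction k (PR K P))

/-- The graded coaction. -/
noncomputable def muL : AddMonoidAlgebra K ℤ →ₐ[k] AdjoinRoot (PL K P) :=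
  AddMonoidAlgebra.liftNCAlgHom ((kap P).comp c.μ) (TmHom P) fun _ _ => Commute.all _ _

lemma muL_single (a : ℤ) (x : K) : muL c (AddMonoidAlgebra.single a x) =
    kap P (c.μ x) * of (PL K P) (Tm a) := by
  rw [muL, AddMonoidAlgebra.coe_liftNCAlgHom]
  exact AddMonoidAlgebra.liftNC_single _ _ _ _

lemma kap_eq_sum (hP : P.Monic) (h : AdjoinRoot (PR K P)) :
    kap P h = ∑ i ∈ Finset.range (PR K P).natDegree,
      of (PL K P) (AddMonoidAlgebra.single (i : ℤ) (cf (hP.map _) i h)) * root _ ^ i := by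
  have hPK : (PR K P).Monic := hP.map _
  conv_lhs => rw [← sum_cf hPK h]
  rw [map_sum]
  refine Finset.sum_congr rfl fun i _ => ?_
  rw [map_mul, map_pow, kap_of, kap_root, mul_pow, ← map_pow, Tm_pow, ← mul_assoc, ← map_mul,
    mul_one, single_eq (k := k)]

lemma cf_kap (hP : P.Monic) (a : ℤ) (h : AdjoinRoot (PR K P)) (m : ℕ) :
    cf (PT_monic hP (Tm (-1))) m (kap P h * of (PL K P) (Tm a)) =
      AddMonoidAlgebra.single (a + m) (cf (hP.map (algebraMap k K)) m h) := by
  have hdeg : (PR K P).natDegree = (PL K P).natDegree := by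
    rw [PT_natDegree hP, hP.natDegree_map]
  rw [kap_eq_sum hP, Finset.sum_mul, hdeg]
  have h1 : ∀ i ∈ Finset.range (PL K P).natDegree,
      of (PL K P) (AddMonoidAlgebra.single (i : ℤ) (cf (hP.map (algebraMap k K)) i h)) *
        root _ ^ i * of (PL K P) (Tm a) = of (PL K P) (AddMonoidAlgebra.single (a + i)
        (cf (hP.map (algebraMap k K)) i h)) * root _ ^ i := by
    intro i _
    rw [mul_right_comm, ← map_mul, AddMonoidAlgebra.single_mul_single, mul_one, add_comm a]
  rw [Finset.sum_congr rfl h1, cf_sum_range]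
  split_ifs with hm
  · rfl
  · rw [cf_of_ge (hP.map _) (by rw [hdeg]; exact not_lt.1 hm), AddMonoidAlgebra.single_zero]

lemma cf_muL_single (hP : P.Monic) (a : ℤ) (x : K) (m : ℕ) :
    cf (PT_monic hP (Tm (-1))) m (muL c (AddMonoidAlgebra.single a x)) =
      AddMonoidAlgebra.single (a + m) (cf (hP.map (algebraMap k K)) m (c.μ x)) := by
  rw [muL_single, cf_kap hP]

/-- Coefficients of the graded coaction. -/
lemma coeff_cf_muL (hP : P.Monic) (F : AddMonoidAlgebra K ℤ) (m : ℕ) (b : ℤ) :
    (cf (PT_monic hP (Tm (-1))) m (muL c F)).coeff b =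
      cf (hP.map (algebraMap k K)) m (c.μ (F.coeff (b - m))) := by
  classical
  induction F using AddMonoidAlgebra.induction_linear with
  | zero => simp
  | add F G hF hG =>
    rw [map_add, map_add, AddMonoidAlgebra.coeff_add, Finsupp.add_apply, hF, hG,
      AddMonoidAlgebra.coeff_add, Finsupp.add_apply, map_add, map_add]
  | single a x =>
    rw [cf_muL_single c hP, AddMonoidAlgebra.coeff_single, AddMonoidAlgebra.coeff_single,
      Finsupp.single_apply, Finsupp.single_apply]
    by_cases h1 : a + m = b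
    · rw [if_pos h1, if_pos (by omega)]
    · rw [if_neg h1, if_neg (by omega), map_zero, map_zero]

theorem coactL (p : ℕ) [Fact p.Prime] [CharP k p] (hP : P.Monic) (h0 : 0 < P.natDegree)
    (hadd : ∀ i, P.coeff i ≠ 0 → ∃ e, i = p ^ e) :
    Coact (PL K P) (muL c : AddMonoidAlgebra K ℤ →+* AdjoinRoot (PL K P)) := by
  have hPL : (PL K P).Monic := PT_monic hP _
  have hPK : (PR K P).Monic := hP.map _
  have hdegL : (PL K P).natDegree = P.natDegree := PT_natDegree hP _
  have hdegK : (PR K P).natDegree = P.natDegree := hP.natDegree_map _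
  have hadd' := PT_additive p hadd (AddMonoidAlgebra K ℤ) (Tm (-1))
  refine ⟨hPL, fun φ a b => hadd' _ φ a b, ?_, ?_, ?_⟩
  · intro i
    rw [coeff_scaleRoots, coeff_map]
    change muL c _ = _
    rw [map_mul, AlgHom.commutes, Tm_pow, muL_single, map_one, map_one, one_mul, map_mul]
    rfl
  · intro F
    change cf _ 0 (muL c F) = F
    refine AddMonoidAlgebra.ext (Finsupp.ext fun b => ?_)
    rw [coeff_cf_muL c hP, Nat.cast_zero, sub_zero, ← cf_zero_eq_lift hPK (by omega) c.root_zero,
      c.counit]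
  · -- coassociativity
    have key : ∀ (a : ℤ) (x : K), ∑ i ∈ Finset.range (PL K P).natDegree,
        of (P2 (PL K P)) (muL c (cf hPL i (muL c (AddMonoidAlgebra.single a x)))) *
          root (P2 (PL K P)) ^ i = ∑ i ∈ Finset.range (PL K P).natDegree,
        of (P2 (PL K P)) (of (PL K P) (cf hPL i (muL c (AddMonoidAlgebra.single a x)))) *
          (of (P2 (PL K P)) (root (PL K P)) + root (P2 (PL K P))) ^ i := by
      intro a x
      -- the map `κ₂`
      have hk : eval₂ (((ofAlgHom k (P2 (PL K P))).comp (kap P) :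
          AdjoinRoot (PR K P) →ₐ[k] AdjoinRoot (P2 (PL K P))) : _ →+* _)
          (of (P2 (PL K P)) (of (PL K P) (Tm 1)) * root (P2 (PL K P)))
          (P1 (PR K P)) = 0 := by
        rw [P1, eval₂_map]
        have h1 := eval₂_PR (((ofAlgHom k (P2 (PL K P))).comp (kap P)).comp
          (ofAlgHom k (PR K P))) P
          (of (P2 (PL K P)) (of (PL K P) (Tm 1)) * root (P2 (PL K P)))
        have h2 := aeval_of_PT ((ofAlgHom k (P2 (PL K P))).comp (ofAlgHom k (PL K P))) P
          (t := Tm (-1)) (T := Tm 1) (by rw [Tm_mul]; rfl) (r := root (P2 (PL K P))) (by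
            have h3 := eval₂_root (P2 (PL K P))
            rw [P2, eval₂_map] at h3
            exact h3)
        exact h1.trans h2
      let k2 : AdjoinRoot (P1 (PR K P)) →+* AdjoinRoot (P2 (PL K P)) :=
        AdjoinRoot.lift (((ofAlgHom k (P2 (PL K P))).comp (kap P) :
          AdjoinRoot (PR K P) →ₐ[k] AdjoinRoot (P2 (PL K P))) : _ →+* _)
          (of (P2 (PL K P)) (of (PL K P) (Tm 1)) * root (P2 (PL K P))) hk
      have k2_of : ∀ z, k2 (of (P1 (PR K P)) z) = of (P2 (PL K P)) (kap P z) := fun z =>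
        AdjoinRoot.lift_of hk
      have k2_root : k2 (root (P1 (PR K P))) =
          of (P2 (PL K P)) (of (PL K P) (Tm 1)) * root (P2 (PL K P)) := AdjoinRoot.lift_root hk
      have hc := c.coassoc x
      rw [lift_eq_sum hPK, lift_eq_sum hPK] at hc
      have hc2 := congrArg (fun z => k2 z * of (P2 (PL K P)) (of (PL K P) (Tm a))) hc
      simp only [map_sum, map_mul, map_pow, map_add, RingHom.comp_apply, k2_of, k2_root,
        Finset.sum_mul] at hc2
      rw [hdegL, ← hdegK]
      refine Eq.trans (Finset.sum_congr rfl fun i _ => ?_)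
        (hc2.trans (Finset.sum_congr rfl fun i _ => ?_))
      · rw [cf_muL_single c hP, muL_single]
        change _ = of (P2 (PL K P)) (kap P (c.μ (cf hPK i (c.μ x)))) * _ ^ i * _
        have h1 : (Tm (a + i) : AddMonoidAlgebra K ℤ) = Tm a * Tm 1 ^ i := by
          rw [Tm_pow, Tm_mul, mul_one]
        rw [h1, map_mul, map_mul, map_mul, map_pow, map_pow, mul_pow]
        ring
      · rw [cf_muL_single c hP, kap_of, kap_root, map_mul]
        have h1 : (AddMonoidAlgebra.single (a + i) (cf hPK i (c.μ x)) : AddMonoidAlgebra K ℤ) =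
            inc k K (cf hPK i (c.μ x)) * (Tm a * Tm 1 ^ i) := by
          rw [Tm_pow, Tm_mul, mul_one, single_eq (k := k)]
        rw [h1, map_mul, map_mul, map_mul, map_mul, map_pow, map_pow]
        have h2 : of (P2 (PL K P)) (of (PL K P) (Tm 1)) * root (P2 (PL K P)) +
            of (P2 (PL K P)) (of (PL K P) (Tm 1)) * of (P2 (PL K P)) (root (PL K P)) =
            of (P2 (PL K P)) (of (PL K P) (Tm 1)) *
              (of (P2 (PL K P)) (root (PL K P)) + root (P2 (PL K P))) := by ring
        rw [h2, mul_pow]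
        ring
    intro F
    change ∑ i ∈ Finset.range (PL K P).natDegree,
        of (P2 (PL K P)) (muL c (cf hPL i (muL c F))) * root (P2 (PL K P)) ^ i =
      ∑ i ∈ Finset.range (PL K P).natDegree,
        of (P2 (PL K P)) (of (PL K P) (cf hPL i (muL c F))) *
          (of (P2 (PL K P)) (root (PL K P)) + root (P2 (PL K P))) ^ i
    induction F using AddMonoidAlgebra.induction_linear with
    | zero => simp
    | add F G hF hG =>
      simp only [map_add, add_mul, Finset.sum_add_distrib] at hF hG ⊢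
      rw [hF, hG]
    | single a x => exact key a x

end Pool.Agent.MP_b525bf_ag.Gam
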